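import Pool.Agent.Work.MP_497bf6_gt.Top.Fin
import Pool.Agent.Work.MP_497bf6_gt.ConjR
import Pool.Agent.Work.MP_497bf6_gt.Main

/-!
From a labelling of the slides by affine isometries to a representation of the mapping class group.
-/

set_option autoImplicit false

open Pool.Agent Pool.Agent.IvT

namespace SurfMod

/-- The value of the element `t₁ t₂⁻¹ t₃`. -/
def chain {G : Type} [Group G] (g : (ℕ → ℕ) → ℕ → ℕ → G) : G :=
  run g D0 id ms1 * (run g D0 id ms2)⁻¹ * run g D0 id ms3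

theorem final {G H : Type} [Group G] [NormedAddCommGroup H] [InnerProductSpace ℂ H]
    (j : G →* (H ≃ᵃⁱ[ℂ] H)) (hfin : (Set.range fun g : G => (j g).linearIsometryEquiv).Finite)
    (S : Sys G) (hr : run S.g D0 id msr = 1) {n : ℕ}
    (h : ∀ v, j (chain S.g ^ n) v ≠ v) :
    ∃ (ρ : Mod 3 →* (H ≃ₗᵢ[ℂ] H)) (c : Mod 3 → H), (Set.range ρ).Finite ∧
      (∀ a b, c (a * b) = c a + ρ a (c b)) ∧ ¬ ∃ v : H, ∀ a, c a = ρ a v - v := by
  obtain ⟨Φ, hΦ, -⟩ := IvT.exists_Phi S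
  obtain ⟨Θ, e1, e2, e3⟩ := bridge_run S.g Φ hΦ (conj_r S.g Φ hΦ hr)
  obtain ⟨a, ha⟩ : chain S.g ^ n ∈ Θ.range :=
    pow_mem (mul_mem (mul_mem e1 (inv_mem e2)) e3) n
  have k : ∀ (f : H ≃ᵃⁱ[ℂ] H) (v : H), f v = f.linearIsometryEquiv v + f 0 := fun f v => by
    simpa using f.map_vadd 0 v
  obtain ⟨ρ, c, h3, h4, h5⟩ := cocycle_of_action (j.comp Θ) fun v => ⟨a, fun e => h v (by
    rwa [MonoidHom.comp_apply, ha] at e)⟩
  refine ⟨ρ, c, hfin.subset ?_, h4, h5⟩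
  rintro _ ⟨b, rfl⟩
  refine ⟨Θ b, LinearIsometryEquiv.ext fun v => ?_⟩
  have e0 := h3 b 0
  have e := h3 b v
  rw [MonoidHom.comp_apply] at e e0
  rw [k, e0, map_zero, zero_add] at e
  exact add_right_cancel e

end SurfMod
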