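import Pool.Agent.Work.MP_497bf6_gt.Top.Defs
import Mathlib
import Pool.Agent.Work.MP_d5331a_gt.Hol

-- merged part: Pool.Agent.Work.MP_497bf6_gt.Top.Pi
section
/-!
The parametrisation `pS : ℂ → S` of the punctured surface of genus three: `re` is the parameter
on the boundary circle (a full turn is `12`), the distance from the centre is `exp (-|im|)`.

Plan. `pX_quot`: `Quot.mk` is a quotient map; restrict it to the open set of points other than the
centre (`IsQuotientMap.restrictPreimage_isOpen`, the centre is closed: `nrm`); the map `ee` onto the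
punctured closed disc is a quotient map: it is `w ↦ exp (2 π i w' )` on the closed upper half plane
(`Complex.isOpenMap_exp`, `IsOpenMap.restrictPreimage`) composed with a retraction; or use local
continuous sections `log z`, `log (-z) + π i` on slit planes.
`lift_eq`: define `G z = F w` for a chosen `w` with `ee w = z`; `ee w = ee w'` forces
`|im w| = |im w'|` and `re w' - re w ∈ 12 ℤ` (`Complex.exp_eq_exp_iff_exists_int`), so
`G (ee w) = F w`; `G` respects `Glue 3`, use `Quot.lift`.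
`fibre`: apply `lift_eq` to a canonical form, for instance with `x = re w - 12 ⌊re w / 12⌋`:
`F w = (|im w|, x)` if `im w ≠ 0`; `(0, 0)` if `w` is an integer; `(0, x)` if `⌊x⌋ % 4 < 2` and
`(0, 2 ⌊x⌋ - 1 - x)` otherwise.
`cont_strip`: `F w = F (12 * fract (re w / 12) + |im w| * I)`, `ContinuousOn.comp_fract`.
-/

set_option autoImplicit false

open Complex Set Metric Topology

namespace SurfMod

/-- The surface of genus three. -/
abbrev S : Type := Surf 3

/-- The punctured surface. -/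
abbrev X : Type := {x : S // x ≠ ctr 3}

/-- Polar coordinates on the disc. -/
noncomputable def ee (w : ℂ) : closedBall (0 : ℂ) 1 :=
  ⟨Real.exp (-|w.im|) * bd 3 w.re, by
    simp only [mem_closedBall, dist_zero_right, norm_mul, norm_bd, mul_one, norm_real,
      Real.norm_eq_abs, Real.abs_exp, Real.exp_le_one_iff, Left.neg_nonpos_iff, abs_nonneg]⟩

/-- The parametrisation of the punctured surface. -/
noncomputable def pS (w : ℂ) : S := Quot.mk _ (ee w)

/-- The distance from the centre. -/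
noncomputable def nrm : S → ℝ :=
  Quot.lift (fun z : closedBall (0 : ℂ) 1 => ‖z.1‖) (by
    rintro _ _ ⟨i, _, k, _, s, _, h1, h2⟩
    simp only [h1, h2, norm_bd])

theorem continuous_nrm : Continuous nrm := by
  exact continuous_quot_lift _ (continuous_norm.comp continuous_subtype_val)

theorem nrm_ctr : nrm (ctr 3) = 0 := by
  simp [nrm, ctr]

theorem nrm_pS (w : ℂ) : nrm (pS w) = Real.exp (-|w.im|) := by
  show ‖((Real.exp (-|w.im|) : ℝ) : ℂ) * bd 3 w.re‖ = _
  rw [norm_mul, norm_bd, mul_one, norm_real, Real.norm_eq_abs, Real.abs_exp]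

theorem nrm_eq_zero {x : S} (h : nrm x = 0) : x = ctr 3 := by
  induction x using Quot.ind with
  | mk z =>
    have hz : ‖z.1‖ = 0 := h
    have : z = ⟨0, mem_closedBall_self zero_le_one⟩ := Subtype.ext (norm_eq_zero.1 hz)
    rw [this]; rfl

theorem pS_ne (w : ℂ) : pS w ≠ ctr 3 := by
  intro h
  have := nrm_pS w
  rw [h, nrm_ctr] at this
  exact (Real.exp_pos _).ne this

theorem continuous_pS : Continuous pS := by
  refine continuous_quot_mk.comp (Continuous.subtype_mk ?_ _)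
  unfold bd
  fun_prop

/-- The parametrisation as a map to the punctured surface. -/
noncomputable def pX : C(ℂ, X) := ⟨fun w => ⟨pS w, pS_ne w⟩, continuous_pS.subtype_mk _⟩

theorem Pi_bd (t : ℝ) : bd 3 t = exp ((Real.pi / 6 * t : ℝ) * I) := by
  unfold bd
  congr 1
  push_cast
  ring

theorem Pi_sec (z : closedBall (0 : ℂ) 1) (hz : z.1 ≠ 0) :
    ∃ σ : closedBall (0 : ℂ) 1 → ℂ, ContinuousAt σ z ∧ ∀ ζ, ζ.1 ≠ 0 → ee (σ ζ) = ζ := by
  refine ⟨fun ζ => ((6 / Real.pi * (arg (ζ.1 / z.1) + arg z.1) : ℝ) : ℂ) +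
    ((-Real.log ‖ζ.1‖ : ℝ) : ℂ) * I, ?_, fun ζ hζ => Subtype.ext ?_⟩
  · have a : ContinuousAt (fun ζ : closedBall (0 : ℂ) 1 => arg (ζ.1 / z.1)) z := by
      refine ContinuousAt.comp (f := fun ζ : closedBall (0 : ℂ) 1 => ζ.1 / z.1)
        (continuousAt_arg ?_) (by fun_prop)
      rw [div_self hz]
      exact one_mem_slitPlane
    have b : ContinuousAt (fun ζ : closedBall (0 : ℂ) 1 => Real.log ‖ζ.1‖) z :=
      ContinuousAt.log (by fun_prop) (norm_ne_zero_iff.2 hz)
    exact (continuous_ofReal.continuousAt.comp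
      (continuousAt_const.mul (a.add continuousAt_const))).add
      ((continuous_ofReal.continuousAt.comp b.neg).mul continuousAt_const)
  · have h1 : ‖ζ.1‖ ≤ 1 := mem_closedBall_zero_iff.1 ζ.2
    have h0 : 0 < ‖ζ.1‖ := norm_pos_iff.2 hζ
    have hl : Real.log ‖ζ.1‖ ≤ 0 := Real.log_nonpos h0.le h1
    simp only [ee, add_im, ofReal_im, mul_im, ofReal_re, I_im, mul_one, I_re, mul_zero, add_zero,
      zero_add, add_re, mul_re, sub_self]
    rw [abs_of_nonneg (neg_nonneg.2 hl), neg_neg, Real.exp_log h0, Pi_bd]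
    have e : Real.pi / 6 * (6 / Real.pi * (arg (ζ.1 / z.1) + arg z.1)) =
        arg (ζ.1 / z.1) + arg z.1 := by
      field_simp
    rw [e, ofReal_add, add_mul, exp_add]
    have a := norm_mul_exp_arg_mul_I (ζ.1 / z.1)
    have b := norm_mul_exp_arg_mul_I z.1
    have c : ((‖z.1‖ : ℝ) : ℂ) ≠ 0 := ofReal_ne_zero.2 (norm_ne_zero_iff.2 hz)
    rw [norm_div, ofReal_div] at a
    calc _ = ((‖ζ.1‖ : ℝ) / (‖z.1‖ : ℝ) * exp (arg (ζ.1 / z.1) * I)) *
          ((‖z.1‖ : ℝ) * exp (arg z.1 * I)) := by field_simp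
      _ = ζ.1 := by rw [a, b, div_mul_cancel₀ _ hz]

theorem pX_quot : IsQuotientMap pX := by
  have hsurj : Function.Surjective pX := by
    rintro ⟨x, hx⟩
    induction x using Quot.ind with
    | mk z =>
      have hz : z.1 ≠ 0 := fun e => hx (nrm_eq_zero (show ‖z.1‖ = 0 from norm_eq_zero.2 e))
      obtain ⟨σ, -, h⟩ := Pi_sec z hz
      exact ⟨σ z, Subtype.ext (congrArg (Quot.mk _) (h z hz))⟩
  refine (isQuotientMap_iff _).2 ⟨isCoinducing_iff.2 fun U =>
    ⟨fun hU => ?_, fun hU => hU.preimage pX.continuous⟩, hsurj⟩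
  refine isOpen_induced_iff.2 ⟨Subtype.val '' U, ?_, Subtype.val_injective.preimage_image U⟩
  rw [← isQuotientMap_quot_mk.isOpen_preimage, isOpen_iff_mem_nhds]
  rintro z ⟨x, hxU, hx⟩
  have hz : z.1 ≠ 0 := fun e =>
    x.2 (hx.trans (nrm_eq_zero (show ‖z.1‖ = 0 from norm_eq_zero.2 e)))
  obtain ⟨σ, hσ, h⟩ := Pi_sec z hz
  have h1 : σ z ∈ pX ⁻¹' U := by
    have : pX (σ z) = x := Subtype.ext ((congrArg (Quot.mk _) (h z hz)).trans hx.symm)
    simpa [this] using hxU
  have h2 : {ζ : closedBall (0 : ℂ) 1 | ζ.1 ≠ 0} ∈ 𝓝 z :=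
    (isOpen_ne.preimage continuous_subtype_val).mem_nhds hz
  filter_upwards [hσ (hU.mem_nhds h1), h2] with ζ a b
  exact ⟨pX (σ ζ), a, congrArg (Quot.mk _) (h ζ b)⟩

theorem pS_surj {x : S} (h : x ≠ ctr 3) : ∃ w, pS w = x :=
  let ⟨w, hw⟩ := pX_quot.surjective ⟨x, h⟩
  ⟨w, congrArg Subtype.val hw⟩

theorem pS_conj (w : ℂ) : pS ((starRingEnd ℂ) w) = pS w := by
  refine congrArg (Quot.mk _) (Subtype.ext ?_)
  simp [ee]

theorem Pi_bd_add (t : ℝ) (n : ℤ) : bd 3 (t + 12 * n) = bd 3 t := by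
  rw [Pi_bd, Pi_bd, exp_eq_exp_iff_exists_int]
  exact ⟨n, by push_cast; ring⟩

theorem Pi_ee_real (x : ℝ) : (ee x : ℂ) = bd 3 x := by
  simp [ee]

theorem pS_add (w : ℂ) (n : ℤ) : pS (w + 12 * n) = pS w := by
  refine congrArg (Quot.mk _) (Subtype.ext ?_)
  have a : (w + 12 * n).im = w.im := by simp
  have b : (w + 12 * n).re = w.re + 12 * n := by simp
  simp only [ee, a, b, Pi_bd_add]

theorem pS_glue {j : ℤ} (hj : j % 4 < 2) {x : ℝ} (h1 : (j : ℝ) ≤ x) (h2 : x ≤ j + 1) :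
    pS (x : ℝ) = pS ((2 * j + 3 - x : ℝ) : ℂ) := by
  have a := pS_add ((x - 12 * (j / 12 : ℤ) : ℝ) : ℂ) (j / 12)
  have b := pS_add ((2 * j + 3 - x - 12 * (j / 12 : ℤ) : ℝ) : ℂ) (j / 12)
  rw [show ((x - 12 * (j / 12 : ℤ) : ℝ) : ℂ) + 12 * (j / 12 : ℤ) = x by
    rw [ofReal_sub, ofReal_mul, ofReal_intCast, ofReal_ofNat]; ring] at a
  rw [show ((2 * j + 3 - x - 12 * (j / 12 : ℤ) : ℝ) : ℂ) + 12 * (j / 12 : ℤ) =
    ((2 * j + 3 - x : ℝ) : ℂ) by
    rw [ofReal_sub _ (12 * _), ofReal_mul 12, ofReal_intCast, ofReal_ofNat]; ring] at b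
  rw [a, b]
  obtain ⟨i, hi⟩ : ∃ i : ℕ, (i : ℤ) = j % 12 / 4 := ⟨(j % 12 / 4).toNat, by omega⟩
  obtain ⟨k, hk⟩ : ∃ k : ℕ, (k : ℤ) = j % 4 := ⟨(j % 4).toNat, by omega⟩
  have e : (j : ℝ) = 12 * (j / 12 : ℤ) + 4 * (i : ℝ) + (k : ℝ) := by
    have : j = 12 * (j / 12) + 4 * (i : ℤ) + (k : ℤ) := by omega
    exact_mod_cast this
  refine Quot.sound ⟨i, by omega, k, by omega, x - j, ⟨by linarith only [h1], by linarith only [h2]⟩, ?_, ?_⟩
  · rw [Pi_ee_real]; congr 1; linarith only [e]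
  · rw [Pi_ee_real]; congr 1; linarith only [e]

theorem Pi_ee_eq {w w' : ℂ} (h : ee w = ee w') :
    |w.im| = |w'.im| ∧ ∃ n : ℤ, w'.re = w.re + 12 * n := by
  have a : |w.im| = |w'.im| := by
    have := (nrm_pS w).symm.trans ((congrArg nrm (congrArg (Quot.mk _) h)).trans (nrm_pS w'))
    exact neg_injective (Real.exp_injective this)
  refine ⟨a, ?_⟩
  have b : ((Real.exp (-|w.im|) : ℝ) : ℂ) * bd 3 w.re = (Real.exp (-|w'.im|) : ℝ) * bd 3 w'.re :=
    congrArg Subtype.val h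
  rw [a] at b
  have c := mul_left_cancel₀ (ofReal_ne_zero.2 (Real.exp_pos _).ne') b
  rw [Pi_bd, Pi_bd, eq_comm, exp_eq_exp_iff_exists_int] at c
  obtain ⟨n, hn⟩ := c
  refine ⟨n, ?_⟩
  have d := congrArg im hn
  simp only [mul_im, ofReal_re, I_im, mul_one, ofReal_im, I_re, mul_zero, add_zero, add_im,
    intCast_re, mul_re, re_ofNat, im_ofNat, sub_self, zero_mul, sub_zero, intCast_im] at d
  have hp := Real.pi_pos
  have : Real.pi * w'.re = Real.pi * (w.re + 12 * n) := by linarith only [d]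
  exact mul_left_cancel₀ hp.ne' this

theorem lift_eq {Y : Type*} (F : ℂ → Y) (h1 : ∀ w, F ((starRingEnd ℂ) w) = F w)
    (h2 : ∀ w, F (w + 12) = F w)
    (h3 : ∀ (j : ℤ) (x : ℝ), j % 4 < 2 → (j : ℝ) ≤ x → x ≤ j + 1 →
      F (x : ℝ) = F ((2 * j + 3 - x : ℝ) : ℂ)) {w w' : ℂ} (h : pS w = pS w') : F w = F w' := by
  classical
  have h2' : ∀ (n : ℤ) (w : ℂ), F (w + 12 * n) = F w := fun n w => by
    have := (show Function.Periodic F 12 from h2).int_mul n w
    rwa [mul_comm] at this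
  have key : ∀ u v : ℂ, ee u = ee v → F u = F v := fun u v e => by
    obtain ⟨a, n, b⟩ := Pi_ee_eq e
    rcases abs_eq_abs.1 a with a | a
    · rw [← h2' n u]
      exact congrArg F (Complex.ext (by simp [b]) (by simp [a]))
    · rw [← h1 u, ← h2' n]
      exact congrArg F (Complex.ext (by simp [b]) (by simp [a]))
  let G : closedBall (0 : ℂ) 1 → Y := fun z => if h : ∃ u, ee u = z then F h.choose else F 0
  have hG : ∀ u, G (ee u) = F u := fun u => by
    have h : ∃ v, ee v = ee u := ⟨u, rfl⟩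
    simp only [G, dif_pos h]
    exact key _ _ h.choose_spec
  have hr : ∀ z z', Glue 3 z z' → G z = G z' := by
    rintro z z' ⟨i, -, k, hk, s, ⟨s0, s1⟩, a, b⟩
    rw [← Pi_ee_real] at a b
    rw [Subtype.ext a, Subtype.ext b, hG, hG,
      h3 (4 * i + k) _ (by omega) (by push_cast; linarith only [s0]) (by push_cast; linarith)]
    congr 2
    push_cast
    ring
  rw [← hG, ← hG]
  exact congrArg (Quot.lift G hr) h

theorem pS_int (j : ℤ) : pS (j : ℂ) = pS 0 := by
  have a : ∀ j : ℤ, j % 4 < 2 → pS (j : ℂ) = pS ((j + 3 : ℤ) : ℂ) := fun j hj => by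
    have := pS_glue hj (x := j) le_rfl (by linarith)
    convert this using 2
    · simp
    · push_cast; ring
  have b : ∀ j : ℤ, j % 4 < 2 → pS ((j + 1 : ℤ) : ℂ) = pS ((j + 2 : ℤ) : ℂ) := fun j hj => by
    have := pS_glue hj (x := j + 1) (by linarith) le_rfl
    convert this using 2
    · push_cast; ring
    · push_cast; ring
  have c : ∀ i : ℤ, pS ((4 * i + 1 : ℤ) : ℂ) = pS ((4 * i : ℤ) : ℂ) ∧
      pS ((4 * i + 2 : ℤ) : ℂ) = pS ((4 * i : ℤ) : ℂ) ∧
      pS ((4 * i + 3 : ℤ) : ℂ) = pS ((4 * i : ℤ) : ℂ) ∧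
      pS ((4 * (i + 1) : ℤ) : ℂ) = pS ((4 * i : ℤ) : ℂ) := fun i => by
    have a0 := a (4 * i) (by omega)
    have a1 := a (4 * i + 1) (by omega)
    have b0 := b (4 * i) (by omega)
    have b1 := b (4 * i + 1) (by omega)
    rw [show 4 * i + 1 + 3 = 4 * (i + 1) by ring] at a1
    rw [show 4 * i + 1 + 1 = 4 * i + 2 by ring, show 4 * i + 1 + 2 = 4 * i + 3 by ring] at b1
    exact ⟨b0.trans (b1.trans a0.symm), b1.trans a0.symm, a0.symm,
      a1.symm.trans (b0.trans (b1.trans a0.symm))⟩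
  have d : ∀ i : ℤ, pS ((4 * i : ℤ) : ℂ) = pS 0 := fun i => by
    induction i using Int.induction_on with
    | zero => simp
    | succ n ih => rw [(c n).2.2.2, ih]
    | pred n ih =>
      rw [← (c (-n - 1)).2.2.2, show (-n - 1 + 1 : ℤ) = -n by ring, ih]
  obtain ⟨c1, c2, c3, -⟩ := c (j / 4)
  have h : j = 4 * (j / 4) ∨ j = 4 * (j / 4) + 1 ∨ j = 4 * (j / 4) + 2 ∨ j = 4 * (j / 4) + 3 := by
    omega
  rcases h with h | h | h | h
  · rw [h, d]
  · rw [h, c1, d]
  · rw [h, c2, d]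
  · rw [h, c3, d]

/-- The relation that describes the fibres. -/
def PiR (w' w : ℂ) : Prop := |w.im| = |w'.im| ∧ ∃ n : ℤ,
    w'.re = w.re + 12 * n ∨ (w.im = 0 ∧ ((∃ j k : ℤ, w.re = j ∧ w'.re = k) ∨
      ∃ j : ℤ, j % 4 < 2 ∧ (((j : ℝ) < w.re ∧ w.re < j + 1) ∨ ((j : ℝ) + 2 < w.re ∧ w.re < j + 3)) ∧
        w'.re = 2 * j + 3 - w.re + 12 * n))

theorem PiR_add {w' w : ℂ} (m : ℤ) (h : PiR w' w) : PiR w' (w + 12 * m) := by
  have a : (w + 12 * m).im = w.im := by simp
  have b : (w + 12 * m).re = w.re + 12 * m := by simp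
  unfold PiR
  rw [a, b]
  obtain ⟨h0, n, h | ⟨h1, ⟨j, k, h2, h3⟩ | ⟨j, hj, h2, h3⟩⟩⟩ := h
  · exact ⟨h0, n - m, Or.inl (by push_cast; linarith only [h])⟩
  · exact ⟨h0, 0, Or.inr ⟨h1, Or.inl ⟨j + 12 * m, k, by push_cast; linarith only [h2], h3⟩⟩⟩
  · refine ⟨h0, n - m, Or.inr ⟨h1, Or.inr ⟨j + 12 * m, by omega, ?_, by push_cast; linarith only [h3]⟩⟩⟩
    push_cast
    rcases h2 with ⟨p, q⟩ | ⟨p, q⟩
    · exact Or.inl ⟨by linarith, by linarith⟩
    · exact Or.inr ⟨by linarith, by linarith⟩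

theorem PiR_glue {w' : ℂ} {j : ℤ} (hj : j % 4 < 2) {x : ℝ}
    (hx : ((j : ℝ) ≤ x ∧ x ≤ j + 1) ∨ ((j : ℝ) + 2 ≤ x ∧ x ≤ j + 3)) (h : PiR w' (x : ℝ)) :
    PiR w' ((2 * j + 3 - x : ℝ) : ℂ) := by
  unfold PiR at h ⊢
  simp only [ofReal_im, ofReal_re, true_and] at h ⊢
  obtain ⟨h0, n, h | ⟨i, k, h2, h3⟩ | ⟨i, hi, h2, h3⟩⟩ := h
  · by_cases hz : ∃ i : ℤ, x = i
    · obtain ⟨i, rfl⟩ := hz
      exact ⟨h0, 0, Or.inr (Or.inl ⟨2 * j + 3 - i, i + 12 * n, by push_cast; ring,
        by push_cast; exact h⟩)⟩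
    · refine ⟨h0, n, Or.inr (Or.inr ⟨j, hj, ?_, by linarith only [h]⟩)⟩
      have e : ∀ c : ℤ, x ≠ j + c := fun c e => hz ⟨j + c, by push_cast; exact e⟩
      rcases hx with ⟨p, q⟩ | ⟨p, q⟩
      · have p' := lt_of_le_of_ne p (by simpa using (e 0).symm)
        have q' := lt_of_le_of_ne q (by simpa using e 1)
        exact Or.inr ⟨by linarith, by linarith⟩
      · have p' := lt_of_le_of_ne p (by simpa using (e 2).symm)
        have q' := lt_of_le_of_ne q (by simpa using e 3)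
        exact Or.inl ⟨by linarith, by linarith⟩
  · exact ⟨h0, 0, Or.inr (Or.inl ⟨2 * j + 3 - i, k, by push_cast; rw [h2], h3⟩)⟩
  · have e : i = j := by
      rcases hx with ⟨p, q⟩ | ⟨p, q⟩ <;> rcases h2 with ⟨p', q'⟩ | ⟨p', q'⟩
      · have a : j < i + 1 := by exact_mod_cast (by linarith : (j : ℝ) < i + 1)
        have b : i < j + 1 := by exact_mod_cast (by linarith : (i : ℝ) < j + 1)
        omega
      · have a : j < i + 3 := by exact_mod_cast (by linarith only [p, q'] : (j : ℝ) < i + 3)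
        have b : i + 1 < j := by exact_mod_cast (by linarith : (i : ℝ) + 1 < j)
        omega
      · have a : j + 1 < i := by exact_mod_cast (by linarith only [p, q'] : (j : ℝ) + 1 < i)
        have b : i < j + 3 := by exact_mod_cast (by linarith : (i : ℝ) < j + 3)
        omega
      · have a : j < i + 1 := by exact_mod_cast (by linarith only [p, q'] : (j : ℝ) < i + 1)
        have b : i < j + 1 := by exact_mod_cast (by linarith : (i : ℝ) < j + 1)
        omega
    subst e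
    exact ⟨h0, n, Or.inl h3⟩

theorem fibre {w w' : ℂ} (h : pS w = pS w') : |w.im| = |w'.im| ∧ ∃ n : ℤ,
    w'.re = w.re + 12 * n ∨ (w.im = 0 ∧ ((∃ j k : ℤ, w.re = j ∧ w'.re = k) ∨
      ∃ j : ℤ, j % 4 < 2 ∧ (((j : ℝ) < w.re ∧ w.re < j + 1) ∨ ((j : ℝ) + 2 < w.re ∧ w.re < j + 3)) ∧
        w'.re = 2 * j + 3 - w.re + 12 * n)) := by
  have key := lift_eq (fun u => PiR w' u) (fun u => by simp [PiR]) (fun u => ?_)
    (fun j x hj x1 x2 => ?_) h
  · exact (show PiR w' w from key ▸ ⟨rfl, 0, Or.inl (by simp)⟩)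
  · refine propext ⟨fun a => ?_, fun a => by simpa using PiR_add 1 a⟩
    have := PiR_add (-1) a
    rwa [show u + 12 + 12 * ((-1 : ℤ) : ℂ) = u by push_cast; ring] at this
  · refine propext ⟨PiR_glue hj (Or.inl ⟨x1, x2⟩), fun a => ?_⟩
    have := PiR_glue hj (Or.inr ⟨by linarith only [x2], by linarith⟩) a
    rwa [show (2 * j + 3 - (2 * j + 3 - x) : ℝ) = x by ring] at this

theorem cont_strip {Y : Type*} [TopologicalSpace Y] (F : ℂ → Y)
    (h1 : ∀ w, F ((starRingEnd ℂ) w) = F w) (h2 : ∀ w, F (w + 12) = F w)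
    (h : ContinuousOn F {w | 0 ≤ w.re ∧ w.re ≤ 12 ∧ 0 ≤ w.im}) : Continuous F := by
  have h2' : ∀ (n : ℤ) (w : ℂ), F (w + 12 * n) = F w := fun n w => by
    have := (show Function.Periodic F 12 from h2).int_mul n w
    rwa [mul_comm] at this
  have a : ContinuousOn (Function.uncurry fun (w : ℂ) (t : ℝ) =>
      F (((12 * t : ℝ) : ℂ) + ((|w.im| : ℝ) : ℂ) * I)) (univ ×ˢ Icc 0 1) := by
    refine h.comp (f := fun p : ℂ × ℝ => ((12 * p.2 : ℝ) : ℂ) + ((|p.1.im| : ℝ) : ℂ) * I)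
      (by fun_prop) ?_
    rintro ⟨w, t⟩ ⟨-, t0, t1⟩
    simp only [mem_ofPred_eq, add_re, ofReal_re, mul_re, I_re, mul_zero, ofReal_im, I_im, mul_one,
      sub_self, add_zero, add_im, mul_im, zero_add]
    exact ⟨by linarith, by linarith, abs_nonneg _⟩
  have b := a.comp_fract (s := fun w : ℂ => w.re / 12) (by fun_prop) (fun w => by
    rw [← h2]; congr 1; push_cast; ring)
  refine b.congr fun w => ?_
  rw [← h2' ⌊w.re / 12⌋]
  have c : 12 * Int.fract (w.re / 12) + 12 * (⌊w.re / 12⌋ : ℝ) = w.re := by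
    rw [Int.fract]; ring
  rcases abs_cases w.im with ⟨e, -⟩ | ⟨e, -⟩
  · exact congrArg F (Complex.ext (by simpa using c) (by simp [e]))
  · rw [← h1 w]
    exact congrArg F (Complex.ext (by simpa using c) (by simp [e]))

/-- A map that is the identity near the centre is continuous if it is so on the strip. -/
theorem cont_of_strip (T : S → S) {r : ℝ} (hr : 0 < r) (h0 : ∀ x, nrm x < r → T x = x)
    (h : ContinuousOn (fun w => T (pS w)) {w | 0 ≤ w.re ∧ w.re ≤ 12 ∧ 0 ≤ w.im}) :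
    Continuous T := by
  have a : Continuous fun w => T (pS w) := cont_strip _ (fun w => by rw [pS_conj])
    (fun w => by simpa using congrArg T (pS_add w 1)) h
  have b : Continuous fun x : X => T x.1 := pX_quot.continuous_iff.2 a
  have c : ContinuousOn T {x | x ≠ ctr 3} := continuousOn_iff_continuous_domRestrict.2 b
  have o : IsOpen {x : S | x ≠ ctr 3} := by
    have : {x : S | x ≠ ctr 3} = nrm ⁻¹' {0}ᶜ := by
      ext x
      exact ⟨fun p q => p (nrm_eq_zero q), fun p q => p (by rw [q]; exact nrm_ctr)⟩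
    rw [this]
    exact isOpen_compl_singleton.preimage continuous_nrm
  refine continuous_iff_continuousAt.2 fun x => ?_
  by_cases hx : x = ctr 3
  · have : {y : S | nrm y < r} ∈ 𝓝 x :=
      (isOpen_lt continuous_nrm continuous_const).mem_nhds (by simpa [hx, nrm_ctr] using hr)
    exact continuousAt_id.congr (Filter.eventually_of_mem this fun y hy => (h0 y hy).symm)
  · exact c.continuousAt (o.mem_nhds hx)

theorem loop_eq (t : ℝ) :
    loop 3 (Circle.exp (2 * Real.pi * t)) = pS ((12 * t : ℝ) + Real.log 2 * I) := by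
  refine congrArg (Quot.mk _) (Subtype.ext ?_)
  have a : (((12 * t : ℝ) : ℂ) + Real.log 2 * I).im = Real.log 2 := by
    simp only [add_im, ofReal_im, mul_im, ofReal_re, I_im, mul_one, I_re, mul_zero, add_zero,
      zero_add]
  have b : (((12 * t : ℝ) : ℂ) + Real.log 2 * I).re = 12 * t := by
    simp only [add_re, ofReal_re, mul_re, I_re, mul_zero, ofReal_im, I_im, mul_one, sub_self,
      add_zero]
  simp only [ee, a, b]
  rw [abs_of_pos (Real.log_pos one_lt_two), Real.exp_neg, Real.exp_log two_pos, Pi_bd,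
    Circle.coe_exp, show Real.pi / 6 * (12 * t) = 2 * Real.pi * t by ring]
  push_cast
  ring

theorem nrm_loop (u : Circle) : nrm (loop 3 u) = 1 / 2 := by
  show ‖(u : ℂ) / 2‖ = 1 / 2
  simp

end SurfMod
end

-- merged part: Pool.Agent.Work.MP_497bf6_gt.Top.Ann
section
/-!
Three annuli in the surface. `ann c d (φ, σ)` is the point `c + R exp (π φ i)` with
`R = rho σ ∈ [5/8, 7/8]` where `sin (π φ) ≥ 0` and `R = d - rho σ` where `sin (π φ) ≤ 0`.
For `d = 0` this is one half annulus in the upper half plane whose ends are glued (period `1`),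
for `d = 4` two concentric half annuli (period `2`).

Plan. `Par.glue`: `pS_glue` with `j = 0` (`c = 3/2`), `j = 1` (`c = 5/2`), `j = 4` and `j = 0`
(`c = 7/2`). `Par.real`: `fibre`; the integer `j` is determined by the range of `c + ε ρ`.
`ann_neg`: if `sin = 0` then `exp (π φ i) = ± 1`, use `Par.glue`. `continuous_ann`:
`Continuous.if_le`. `ann_inj`: `fibre`; if the imaginary part is not zero the two points have the
same real part (ranges: `|re - c| ≤ 27/8`) and the same `|im|`, hence the same `|R|`; for `d = 4`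
the ranges of `rho` and `4 - rho` are disjoint, so the branch, `rho`, `cos` and `sin` agree
(`Complex.exp_eq_exp_iff_exists_int`); for `d = 0` both points lie in the upper half plane and
`exp (2 π φ i)` agrees. If `sin = 0` use `Par.real`. `ann_out`: same case split; from
`|im w| = |im w'|`, `re w = re w'` get `‖w - c‖ = |R|`.
-/

set_option autoImplicit false

open Complex Set Metric Topology

namespace SurfMod

/-- The radius. -/
noncomputable def rho (σ : ℝ) : ℝ := 5 / 8 + max 0 (min σ 1) / 4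

/-- The annulus. -/
noncomputable def ann (c d : ℝ) (a : ℝ × ℝ) : S :=
  pS (c + (if 0 ≤ Real.sin (Real.pi * a.1) then rho a.2 else d - rho a.2 : ℝ) *
    exp (Real.pi * a.1 * I))

/-- The three parameter sets. -/
def Par (c d m : ℝ) : Prop :=
  (c = 3 / 2 ∧ d = 0 ∧ m = 1) ∨ (c = 5 / 2 ∧ d = 0 ∧ m = 1) ∨ (c = 7 / 2 ∧ d = 4 ∧ m = 2)

theorem rho_mem (σ : ℝ) : rho σ ∈ Icc (5 / 8 : ℝ) (7 / 8) := by
  have h1 := le_max_left 0 (min σ 1)
  have h2 : max 0 (min σ 1) ≤ 1 := max_le zero_le_one (min_le_right _ _)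
  unfold rho
  constructor <;> linarith only [h1, h2]

theorem rho_eq {σ : ℝ} (h : σ ∈ Icc (0 : ℝ) 1) : rho σ = 5 / 8 + σ / 4 := by
  rw [rho, min_eq_left h.2, max_eq_right h.1]

theorem continuous_rho : Continuous rho := by
  unfold rho
  fun_prop

variable {c d m : ℝ}

theorem Ann_glue (j : ℤ) {x y : ℝ} (hj : j % 4 < 2) (h1 : (j : ℝ) ≤ x) (h2 : x ≤ j + 1)
    (h3 : y = 2 * j + 3 - x) : pS (x : ℝ) = pS (y : ℝ) := h3 ▸ pS_glue hj h1 h2

theorem Ann_real (a j₀ : ℤ) {x y : ℝ} (h1 : (a : ℝ) < x) (h2 : x < a + 1)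
    (hj : ∀ j : ℤ, j % 4 < 2 → j = a ∨ j + 2 = a → j = j₀) (hy : y = 2 * j₀ + 3 - x) {w : ℂ}
    (hw : pS (x : ℝ) = pS w) :
    w.im = 0 ∧ ∃ n : ℤ, w.re = x + 12 * n ∨ w.re = y + 12 * n := by
  obtain ⟨e1, n, e2⟩ := fibre hw
  simp only [ofReal_im, ofReal_re, abs_zero] at e1 e2
  have key : ∀ j : ℤ, (j : ℝ) < x → x < j + 1 → j = a := fun j b1 b2 => by
    have c1 : j < a + 1 := by exact_mod_cast b1.trans h2
    have c2 : a < j + 1 := by exact_mod_cast h1.trans b2
    omega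
  refine ⟨abs_eq_zero.1 e1.symm, n, ?_⟩
  rcases e2 with e2 | ⟨-, ⟨j, k, e2, -⟩ | ⟨j, j4, e2, e3⟩⟩
  · exact Or.inl e2
  · rw [e2] at h1 h2
    have c1 : a < j := by exact_mod_cast h1
    have c2 : j < a + 1 := by exact_mod_cast h2
    omega
  · have : j = j₀ := hj j j4 (e2.imp (fun b => key j b.1 b.2) fun b =>
      key (j + 2) (by push_cast; exact b.1) (by push_cast; linarith only [b, b.2]))
    rw [hy, ← this]
    exact Or.inr e3

theorem Ann_re (c R φ : ℝ) :
    ((c : ℂ) + R * exp (Real.pi * φ * I)).re = c + R * Real.cos (Real.pi * φ) := by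
  rw [← ofReal_mul, add_re, re_ofReal_mul, exp_ofReal_mul_I_re, ofReal_re]

theorem Ann_im (c R φ : ℝ) :
    ((c : ℂ) + R * exp (Real.pi * φ * I)).im = R * Real.sin (Real.pi * φ) := by
  rw [← ofReal_mul, add_im, im_ofReal_mul, exp_ofReal_mul_I_im, ofReal_im, zero_add]

theorem Ann_zero {φ : ℝ} (h : Real.sin (Real.pi * φ) = 0) :
    (Real.cos (Real.pi * φ) = 1 ∨ Real.cos (Real.pi * φ) = -1) ∧ ∀ c R : ℝ,
      (c : ℂ) + R * exp (Real.pi * φ * I) = ((c + Real.cos (Real.pi * φ) * R : ℝ) : ℂ) := by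
  refine ⟨Real.sin_eq_zero_iff_cos_eq.1 h, fun c R => Complex.ext ?_ ?_⟩
  · rw [Ann_re, ofReal_re, mul_comm]
  · rw [Ann_im, ofReal_im, h, mul_zero]

theorem Ann_n {x y : ℝ} {n : ℤ} (h1 : 0 < x) (h2 : x < 12) (h3 : 0 ≤ y) (h4 : y ≤ 12)
    (h : y = x + 12 * n) : y = x := by
  have c1 : (-1 : ℤ) < n := by exact_mod_cast (by linarith only [h2, h3, h] : (-1 : ℝ) < n)
  have c2 : n < 1 := by exact_mod_cast (by linarith : (n : ℝ) < 1)
  rw [h, show n = 0 by omega]
  simp

theorem Ann_R (h : Par c d m) {ρ R : ℝ} (hρ : ρ ∈ Icc (5 / 8 : ℝ) (7 / 8))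
    (hR : R = ρ ∨ R = d - ρ) : R ≠ 0 ∧ |R| ≤ 4 ∧ (|R| = ρ ∨ |R| = d - ρ) ∧
      ∀ t : ℝ, |t| ≤ 1 → 0 < c + R * t ∧ c + R * t < 12 := by
  obtain ⟨r1, r2⟩ := hρ
  have key : R ≠ 0 ∧ |R| < c ∧ c < 4 ∧ (|R| = ρ ∨ |R| = d - ρ) := by
    rcases hR with rfl | rfl
    · rw [abs_of_pos (by linarith only [r1])]
      rcases h with ⟨rfl, -⟩ | ⟨rfl, -⟩ | ⟨rfl, -⟩ <;>
        exact ⟨by linarith only [r1], by linarith only [r2], by linarith only [], Or.inl rfl⟩
    · rcases h with ⟨rfl, rfl, -⟩ | ⟨rfl, rfl, -⟩ | ⟨rfl, rfl, -⟩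
      · rw [abs_of_neg (by linarith only [r1])]
        exact ⟨by linarith only [r1], by linarith only [r2], by linarith only [], Or.inl (by ring)⟩
      · rw [abs_of_neg (by linarith only [r1])]
        exact ⟨by linarith only [r1], by linarith only [r2], by linarith only [], Or.inl (by ring)⟩
      · rw [abs_of_pos (by linarith only [r2])]
        exact ⟨by linarith only [r2], by linarith only [r1], by linarith only [], Or.inr rfl⟩
  obtain ⟨k1, k2, k3, k4⟩ := key
  refine ⟨k1, by linarith only [k2, k3], k4, fun t ht => ?_⟩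
  have : |R * t| ≤ |R| := by
    rw [abs_mul]
    exact mul_le_of_le_one_right (abs_nonneg _) ht
  constructor <;> linarith only [k2, this, k3, (abs_le.1 this).1, (abs_le.1 this).2]

theorem Ann_form (c d φ σ : ℝ) : ∃ R : ℝ,
    (0 ≤ Real.sin (Real.pi * φ) ∧ R = rho σ ∨ Real.sin (Real.pi * φ) < 0 ∧ R = d - rho σ) ∧
      ann c d (φ, σ) = pS (c + R * exp (Real.pi * φ * I)) := by
  refine ⟨_, ?_, rfl⟩
  split_ifs with h
  · exact Or.inl ⟨h, rfl⟩
  · exact Or.inr ⟨not_le.1 h, rfl⟩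

theorem Ann_mul {R R' φ φ' : ℝ} (h1 : R' * Real.cos (Real.pi * φ') = R * Real.cos (Real.pi * φ))
    (h2 : R' * Real.sin (Real.pi * φ') = R * Real.sin (Real.pi * φ)) :
    (R' : ℂ) * exp (Real.pi * φ' * I) = R * exp (Real.pi * φ * I) := by
  refine add_left_cancel (a := ((0 : ℝ) : ℂ)) (Complex.ext ?_ ?_)
  · rw [Ann_re, Ann_re, h1]
  · rw [Ann_im, Ann_im, h2]

theorem Ann_fin1 {R φ φ' : ℝ} (h0 : R ≠ 0)
    (h1 : R * Real.cos (Real.pi * φ') = R * Real.cos (Real.pi * φ))
    (h2 : R * Real.sin (Real.pi * φ') = R * Real.sin (Real.pi * φ)) :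
    ∃ n : ℤ, φ' = φ + n * 2 := by
  obtain ⟨n, hn⟩ := exp_eq_exp_iff_exists_int.1
    (mul_left_cancel₀ (ofReal_ne_zero.2 h0) (Ann_mul h1 h2))
  refine ⟨n, mul_left_cancel₀ Real.pi_ne_zero ?_⟩
  have := congrArg im hn
  simp at this
  linarith only [this]

theorem Ann_fin2 {R R' φ φ' : ℝ} (h0 : R ≠ 0) (hR : R' ^ 2 = R ^ 2)
    (h1 : R' * Real.cos (Real.pi * φ') = R * Real.cos (Real.pi * φ))
    (h2 : R' * Real.sin (Real.pi * φ') = R * Real.sin (Real.pi * φ)) :
    ∃ n : ℤ, φ' = φ + n * 1 := by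
  have e := congrArg (· ^ 2) (Ann_mul h1 h2)
  simp only [mul_pow, ← ofReal_pow, hR, sq (exp _), ← exp_add] at e
  obtain ⟨n, hn⟩ := exp_eq_exp_iff_exists_int.1
    (mul_left_cancel₀ (ofReal_ne_zero.2 (pow_ne_zero 2 h0)) e)
  refine ⟨n, mul_left_cancel₀ Real.pi_ne_zero ?_⟩
  have := congrArg im hn
  simp at this
  linarith only [this]

theorem Par.glue (h : Par c d m) {ρ ε : ℝ} (hρ : ρ ∈ Icc (5 / 8 : ℝ) (7 / 8))
    (hε : ε = 1 ∨ ε = -1) : pS ((c + ε * ρ : ℝ) : ℂ) = pS ((c + ε * (d - ρ) : ℝ) : ℂ) := by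
  obtain ⟨r1, r2⟩ := hρ
  rcases h with ⟨rfl, rfl, -⟩ | ⟨rfl, rfl, -⟩ | ⟨rfl, rfl, -⟩ <;> rcases hε with rfl | rfl
  · exact (Ann_glue 0 (by norm_num) (by push_cast; linarith only [r2]) (by push_cast; linarith only [r1])
      (by push_cast; ring)).symm
  · exact Ann_glue 0 (by norm_num) (by push_cast; linarith only [r2]) (by push_cast; linarith only [r1])
      (by push_cast; ring)
  · exact (Ann_glue 1 (by norm_num) (by push_cast; linarith only [r2]) (by push_cast; linarith only [r1])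
      (by push_cast; ring)).symm
  · exact Ann_glue 1 (by norm_num) (by push_cast; linarith only [r2]) (by push_cast; linarith only [r1])
      (by push_cast; ring)
  · exact Ann_glue 4 (by norm_num) (by push_cast; linarith only [r1]) (by push_cast; linarith only [r2])
      (by push_cast; ring)
  · exact (Ann_glue 0 (by norm_num) (by push_cast; linarith only [r1]) (by push_cast; linarith only [r2])
      (by push_cast; ring)).symm

theorem Par.real (h : Par c d m) {ρ ε : ℝ} (hρ : ρ ∈ Icc (5 / 8 : ℝ) (7 / 8))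
    (hε : ε = 1 ∨ ε = -1) {w : ℂ} (hw : pS ((c + ε * ρ : ℝ) : ℂ) = pS w) :
    w.im = 0 ∧ ∃ n : ℤ, w.re = c + ε * ρ + 12 * n ∨ w.re = c + ε * (d - ρ) + 12 * n := by
  obtain ⟨r1, r2⟩ := hρ
  rcases h with ⟨rfl, rfl, -⟩ | ⟨rfl, rfl, -⟩ | ⟨rfl, rfl, -⟩ <;> rcases hε with rfl | rfl
  · exact Ann_real 2 0 (by push_cast; linarith only [r1]) (by push_cast; linarith only [r2]) (by omega)
      (by push_cast; ring) hw
  · exact Ann_real 0 0 (by push_cast; linarith only [r2]) (by push_cast; linarith only [r1]) (by omega)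
      (by push_cast; ring) hw
  · exact Ann_real 3 1 (by push_cast; linarith only [r1]) (by push_cast; linarith only [r2]) (by omega)
      (by push_cast; ring) hw
  · exact Ann_real 1 1 (by push_cast; linarith only [r2]) (by push_cast; linarith only [r1]) (by omega)
      (by push_cast; ring) hw
  · exact Ann_real 4 4 (by push_cast; linarith only [r1]) (by push_cast; linarith only [r2]) (by omega)
      (by push_cast; ring) hw
  · exact Ann_real 2 0 (by push_cast; linarith only [r2]) (by push_cast; linarith only [r1]) (by omega)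
      (by push_cast; ring) hw

theorem ann_pos {φ : ℝ} (σ : ℝ) (hφ : 0 ≤ Real.sin (Real.pi * φ)) :
    ann c d (φ, σ) = pS (c + rho σ * exp (Real.pi * φ * I)) := by
  simp only [ann, if_pos hφ]

theorem ann_neg (h : Par c d m) {φ : ℝ} (σ : ℝ) (hφ : Real.sin (Real.pi * φ) ≤ 0) :
    ann c d (φ, σ) = pS (c + (d - rho σ : ℝ) * exp (Real.pi * φ * I)) := by
  rcases hφ.eq_or_lt with e | e
  · obtain ⟨h1, h2⟩ := Ann_zero e
    rw [ann_pos σ e.ge, h2, h2]
    exact h.glue (rho_mem σ) h1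
  · simp only [ann, if_neg (not_le.2 e)]

theorem continuous_ann (h : Par c d m) : Continuous (ann c d) := by
  have e : ann c d = fun a => if 0 ≤ Real.sin (Real.pi * a.1) then
      pS (c + rho a.2 * exp (Real.pi * a.1 * I)) else
      pS (c + (d - rho a.2 : ℝ) * exp (Real.pi * a.1 * I)) := by
    funext a
    unfold ann
    split_ifs <;> rfl
  have := continuous_rho
  rw [e]
  exact Continuous.if_le (continuous_pS.comp (by fun_prop)) (continuous_pS.comp (by fun_prop))
    continuous_const (by fun_prop) fun a ha => (ann_pos a.2 ha.le).symm.trans (ann_neg h a.2 ha.ge)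

theorem ann_ne (a : ℝ × ℝ) : ann c d a ≠ ctr 3 := pS_ne _

theorem ann_nrm (h : Par c d m) (a : ℝ × ℝ) : Real.exp (-4) ≤ nrm (ann c d a) := by
  obtain ⟨R, hR, e⟩ := Ann_form c d a.1 a.2
  have h1 := (Ann_R h (rho_mem a.2) (hR.imp And.right And.right)).2.1
  rw [show a = (a.1, a.2) from rfl, e, nrm_pS, Ann_im, abs_mul]
  exact Real.exp_le_exp.2 (neg_le_neg
    ((mul_le_of_le_one_right (abs_nonneg _) (Real.abs_sin_le_one _)).trans h1))

theorem ann_per (h : Par c d m) (φ σ : ℝ) : ann c d (φ + m, σ) = ann c d (φ, σ) := by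
  have s1 : Real.sin (Real.pi * (φ + 1)) = -Real.sin (Real.pi * φ) := by
    rw [mul_add, mul_one, Real.sin_add_pi]
  have e1 : exp (Real.pi * (φ + 1 : ℝ) * I) = -exp (Real.pi * φ * I) := by
    rw [← exp_add_pi_mul_I]
    congr 1
    push_cast
    ring
  have one : ∀ {c : ℝ}, Par c 0 1 → ann c 0 (φ + 1, σ) = ann c 0 (φ, σ) := fun h => by
    rcases le_total 0 (Real.sin (Real.pi * φ)) with hs | hs
    · rw [ann_neg h σ (by linarith), ann_pos σ hs, e1]
      congr 1
      push_cast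
      ring
    · rw [ann_pos σ (by linarith), ann_neg h σ hs, e1]
      congr 1
      push_cast
      ring
  rcases id h with ⟨-, rfl, rfl⟩ | ⟨-, rfl, rfl⟩ | ⟨-, rfl, rfl⟩
  · exact one h
  · exact one h
  · have s2 : Real.sin (Real.pi * (φ + 2)) = Real.sin (Real.pi * φ) := by
      rw [mul_add, mul_comm _ 2, Real.sin_add_two_pi]
    have e2 : exp (Real.pi * (φ + 2 : ℝ) * I) = exp (Real.pi * φ * I) := by
      rw [← exp_periodic (Real.pi * φ * I)]
      congr 1
      push_cast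
      ring
    simp only [ann, s2, e2]

theorem ann_inj (h : Par c d m) {φ σ φ' σ' : ℝ} (hσ : σ ∈ Icc (0 : ℝ) 1)
    (hσ' : σ' ∈ Icc (0 : ℝ) 1) (e : ann c d (φ, σ) = ann c d (φ', σ')) :
    σ' = σ ∧ ∃ n : ℤ, φ' = φ + n * m := by
  obtain ⟨R, hR, e1⟩ := Ann_form c d φ σ
  obtain ⟨R', hR', e2⟩ := Ann_form c d φ' σ'
  obtain ⟨a1, -, -, a2⟩ := Ann_R h (rho_mem σ) (hR.imp And.right And.right)
  obtain ⟨b1, -, -, b2⟩ := Ann_R h (rho_mem σ') (hR'.imp And.right And.right)
  obtain ⟨r1, r2⟩ := rho_mem σ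
  obtain ⟨r1', r2'⟩ := rho_mem σ'
  replace b2 := b2 _ (Real.abs_cos_le_one (Real.pi * φ'))
  have hd : d = 0 ∧ m = 1 ∨ d = 4 ∧ m = 2 := by
    rcases h with h | h | h
    exacts [Or.inl h.2, Or.inl h.2, Or.inr h.2]
  have fin : rho σ' ^ 2 = rho σ ^ 2 → σ' = σ := fun e => by
    have := (pow_left_inj₀ (by linarith only [r1']) (by linarith only [r1]) two_ne_zero).1 e
    rw [rho_eq hσ, rho_eq hσ'] at this
    linarith only [this]
  rw [e1, e2] at e
  obtain ⟨f1, n, f2⟩ := fibre e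
  simp only [Ann_re, Ann_im] at f1 f2
  by_cases hs : Real.sin (Real.pi * φ) = 0
  · have hs' : Real.sin (Real.pi * φ') = 0 := by
      rw [hs, mul_zero, abs_zero] at f1
      exact (mul_eq_zero.1 (abs_eq_zero.1 f1.symm)).resolve_left b1
    obtain rfl : R = rho σ := by
      rcases hR with g | g
      exacts [g.2, absurd hs g.1.ne]
    obtain rfl : R' = rho σ' := by
      rcases hR' with g | g
      exacts [g.2, absurd hs' g.1.ne]
    obtain ⟨z1, z2⟩ := Ann_zero hs
    have q := Real.sin_sq_add_cos_sq (Real.pi * φ)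
    have q' := Real.sin_sq_add_cos_sq (Real.pi * φ')
    rw [hs] at q
    rw [hs'] at q'
    rw [z2] at e
    obtain ⟨-, k, g0⟩ := h.real (rho_mem σ) z1 e
    obtain ⟨Q, hQ, g⟩ : ∃ Q, (Q = rho σ ∨ Q = d - rho σ) ∧
        rho σ' * Real.cos (Real.pi * φ') = Q * Real.cos (Real.pi * φ) := by
      rw [Ann_re] at g0
      rcases g0 with g | g
      · have := (Ann_R h (rho_mem σ) (Or.inl rfl)).2.2.2 _ (Real.abs_cos_le_one (Real.pi * φ))
        exact ⟨_, Or.inl rfl, add_left_cancel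
          (Ann_n this.1 this.2 b2.1.le b2.2.le (by rw [g]; ring))⟩
      · have := (Ann_R h (rho_mem σ) (Or.inr rfl)).2.2.2 _ (Real.abs_cos_le_one (Real.pi * φ))
        exact ⟨_, Or.inr rfl, add_left_cancel
          (Ann_n this.1 this.2 b2.1.le b2.2.le (by rw [g]; ring))⟩
    have g2 : rho σ' ^ 2 = Q ^ 2 := by
      linear_combination (rho σ' * Real.cos (Real.pi * φ') + Q * Real.cos (Real.pi * φ)) * g -
        rho σ' ^ 2 * q' + Q ^ 2 * q
    rcases hd with ⟨rfl, rfl⟩ | ⟨rfl, rfl⟩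
    · refine ⟨fin ?_, Ann_fin2 (Ann_R h (rho_mem σ) hQ).1 g2 g (by rw [hs, hs']; ring)⟩
      rcases hQ with rfl | rfl
      exacts [g2, by rw [g2]; ring]
    · rcases hQ with rfl | rfl
      · obtain rfl := fin g2
        exact ⟨rfl, Ann_fin1 a1 g (by rw [hs, hs'])⟩
      · nlinarith
  · replace a2 := a2 _ (Real.abs_cos_le_one (Real.pi * φ))
    have g := add_left_cancel (Ann_n a2.1 a2.2 b2.1.le b2.2.le
      (f2.resolve_right fun k => mul_ne_zero a1 hs k.1))
    have g2 : R' ^ 2 = R ^ 2 := by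
      linear_combination (R' * Real.cos (Real.pi * φ') + R * Real.cos (Real.pi * φ)) * g -
        (sq_eq_sq_iff_abs_eq_abs _ _).2 f1 - R' ^ 2 * Real.sin_sq_add_cos_sq (Real.pi * φ') +
        R ^ 2 * Real.sin_sq_add_cos_sq (Real.pi * φ)
    rcases hd with ⟨rfl, rfl⟩ | ⟨rfl, rfl⟩
    · have up : ∀ {T ψ τ : ℝ}, (0 ≤ Real.sin (Real.pi * ψ) ∧ T = rho τ ∨
          Real.sin (Real.pi * ψ) < 0 ∧ T = 0 - rho τ) →
          0 ≤ T * Real.sin (Real.pi * ψ) ∧ T ^ 2 = rho τ ^ 2 := by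
        rintro T ψ τ (⟨k, rfl⟩ | ⟨k, rfl⟩)
        · exact ⟨mul_nonneg (by linarith only [(rho_mem τ).1]) k, rfl⟩
        · exact ⟨mul_nonneg_of_nonpos_of_nonpos (by linarith only [(rho_mem τ).1]) k.le, by ring⟩
      rw [abs_of_nonneg (up hR).1, abs_of_nonneg (up hR').1] at f1
      exact ⟨fin (by rw [← (up hR).2, ← (up hR').2, g2]), Ann_fin2 a1 g2 g f1.symm⟩
    · rcases hR with ⟨k, rfl⟩ | ⟨k, rfl⟩ <;> rcases hR' with ⟨k', rfl⟩ | ⟨k', rfl⟩
      · obtain rfl := fin g2
        rw [abs_of_nonneg (mul_nonneg (by linarith only [r1']) k),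
          abs_of_nonneg (mul_nonneg (by linarith only [r1']) k')] at f1
        exact ⟨rfl, Ann_fin1 a1 g f1.symm⟩
      · nlinarith
      · nlinarith
      · have := (pow_left_inj₀ (by linarith only [r2']) (by linarith only [r2]) two_ne_zero).1 g2
        obtain rfl := fin (by rw [sub_right_injective this])
        rw [abs_of_neg (mul_neg_of_pos_of_neg (by linarith only [r2']) k),
          abs_of_neg (mul_neg_of_pos_of_neg (by linarith only [r2']) k')] at f1
        exact ⟨rfl, Ann_fin1 a1 g (neg_injective f1).symm⟩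

theorem ann_out (h : Par c d m) {w : ℂ} (h0 : 0 ≤ w.re) (h1 : w.re ≤ 12) (φ σ : ℝ)
    (e : ann c d (φ, σ) = pS w) : ‖w - c‖ = rho σ ∨ ‖w - c‖ = d - rho σ := by
  have key : ∀ {R t s : ℝ}, (R = rho σ ∨ R = d - rho σ) → s ^ 2 + t ^ 2 = 1 → ∀ n : ℤ,
      w.re = c + R * t + 12 * n → |R * s| = |w.im| →
      ‖w - c‖ = rho σ ∨ ‖w - c‖ = d - rho σ := by
    intro R t s hR q n g1 g2
    obtain ⟨-, -, a1, a2⟩ := Ann_R h (rho_mem σ) hR
    replace a2 := a2 t (abs_le_one_iff_mul_self_le_one.2 (by linarith only [q, sq_nonneg s]))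
    have g3 := Ann_n a2.1 a2.2 h0 h1 g1
    have g4 : ‖w - c‖ = |R| := by
      refine (pow_left_inj₀ (norm_nonneg _) (abs_nonneg _) two_ne_zero).1 ?_
      rw [sq_abs, Complex.sq_norm, normSq_apply, sub_re, sub_im, ofReal_re, ofReal_im, g3]
      linear_combination R ^ 2 * q - (sq_eq_sq_iff_abs_eq_abs _ _).2 g2
    rwa [g4]
  have q := Real.sin_sq_add_cos_sq (Real.pi * φ)
  by_cases hs : Real.sin (Real.pi * φ) = 0
  · obtain ⟨z1, z2⟩ := Ann_zero hs
    rw [ann_pos σ hs.ge, z2] at e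
    obtain ⟨g1, n, g | g⟩ := h.real (rho_mem σ) z1 e
    · exact key (Or.inl rfl) q n (by rw [g]; ring) (by rw [hs, g1, mul_zero])
    · exact key (Or.inr rfl) q n (by rw [g]; ring) (by rw [hs, g1, mul_zero])
  · obtain ⟨R, hR, e1⟩ := Ann_form c d φ σ
    replace hR := hR.imp And.right And.right
    rw [e1] at e
    obtain ⟨f1, n, f2⟩ := fibre e
    simp only [Ann_re, Ann_im] at f1 f2
    exact key hR q n (f2.resolve_right fun k =>
      mul_ne_zero (Ann_R h (rho_mem σ) hR).1 hs k.1) f1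

end SurfMod
end

-- merged part: Pool.Agent.Work.MP_497bf6_gt.Top.Twist
section
/-!
The twist along an annulus, as a map of sets.

Plan. In `tw_apply` the chosen point differs from `(φ, σ)` by a multiple of the period in the first
coordinate (`Annu.inj`), use `Annu.per` for integer multiples (`Int.induction_on`).
-/

set_option autoImplicit false

open Set

namespace SurfMod

variable {Y : Type*}

/-- `ι` induces an injective map of the annulus `(ℝ / m ℤ) × [0, 1]`. -/
structure Annu (ι : ℝ × ℝ → Y) (m : ℝ) : Prop where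
  per : ∀ φ σ, ι (φ + m, σ) = ι (φ, σ)
  inj : ∀ φ σ φ' σ', σ ∈ Icc (0 : ℝ) 1 → σ' ∈ Icc (0 : ℝ) 1 → ι (φ, σ) = ι (φ', σ') →
    σ' = σ ∧ ∃ n : ℤ, φ' = φ + n * m

open Classical in
/-- The twist by the amount `μ`. -/
noncomputable def tw (ι : ℝ × ℝ → Y) (μ : ℝ) (x : Y) : Y :=
  if h : ∃ a : ℝ × ℝ, a.2 ∈ Icc (0 : ℝ) 1 ∧ ι a = x then
    ι (h.choose.1 + μ * h.choose.2, h.choose.2) else x

variable {ι : ℝ × ℝ → Y} {m : ℝ}

theorem Annu.per_int (h : Annu ι m) (n : ℤ) (φ σ : ℝ) : ι (φ + n * m, σ) = ι (φ, σ) := by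
  induction n using Int.induction_on with
  | zero => simp
  | succ n ih => rw [← ih, ← h.per (φ + (n : ℤ) * m)]; congr 2; push_cast; ring
  | pred n ih => rw [← ih, ← h.per]; congr 2; push_cast; ring

theorem Annu.tw_apply (h : Annu ι m) (μ φ : ℝ) {σ : ℝ} (hσ : σ ∈ Icc (0 : ℝ) 1) :
    tw ι μ (ι (φ, σ)) = ι (φ + μ * σ, σ) := by
  have e : ∃ a : ℝ × ℝ, a.2 ∈ Icc (0 : ℝ) 1 ∧ ι a = ι (φ, σ) := ⟨(φ, σ), hσ, rfl⟩
  rw [tw, dif_pos e]
  obtain ⟨h1, n, h2⟩ := h.inj φ σ e.choose.1 e.choose.2 hσ e.choose_spec.1 e.choose_spec.2.symm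
  rw [h1, h2, ← h.per_int n (φ + μ * σ)]
  congr 2
  ring

theorem Annu.tw_out (h : Annu ι m) {μ : ℝ} (hμ : μ = m ∨ μ = -m) {x : Y}
    (hx : ∀ φ σ, 0 < σ → σ < 1 → ι (φ, σ) ≠ x) : tw ι μ x = x := by
  by_cases e : ∃ a : ℝ × ℝ, a.2 ∈ Icc (0 : ℝ) 1 ∧ ι a = x
  · obtain ⟨⟨φ, σ⟩, hσ, rfl⟩ := e
    rw [h.tw_apply μ φ hσ]
    rcases hσ.1.eq_or_lt with h0 | h0
    · rw [show σ = 0 from h0.symm, mul_zero, add_zero]
    rcases hσ.2.eq_or_lt with h1 | h1
    · rw [show σ = 1 from h1, mul_one]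
      rcases hμ with rfl | rfl
      · exact h.per φ 1
      · rw [← h.per]; congr 2; ring
    exact (hx φ σ h0 h1 rfl).elim
  · rw [tw, dif_neg e]

theorem Annu.tw_tw (h : Annu ι m) (μ : ℝ) (x : Y) : tw ι (-μ) (tw ι μ x) = x := by
  by_cases e : ∃ a : ℝ × ℝ, a.2 ∈ Icc (0 : ℝ) 1 ∧ ι a = x
  · obtain ⟨⟨φ, σ⟩, hσ, rfl⟩ := e
    rw [h.tw_apply μ φ hσ, h.tw_apply _ _ hσ]
    congr 2
    ring
  · rw [tw.eq_1 ι μ, dif_neg e, tw, dif_neg e]

end SurfMod
end

-- merged part: Pool.Agent.Work.MP_497bf6_gt.Top.TwH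
section
/-!
The twists along the three annuli are homeomorphisms of the surface.

Plan. `continuous_tw`: `cont_of_strip` with `r = exp (-4)` (`ann_nrm`, `Annu.tw_out`). Cover the
strip by the closed sets `A₁ = {‖w - c‖ ∈ [5/8, 7/8]}`, `A₂ = {‖w - c‖ ∈ [d - 7/8, d - 5/8]}` (empty
for `d = 0`) and `A₀ = {‖w - c‖ ∉ (5/8, 7/8), ‖w - c‖ ∉ (d - 7/8, d - 5/8)}`
(`ContinuousOn.union_of_isClosed` or similar). With `α w = arccos (re (w - c) / ‖w - c‖) / π` one has
`w = c + ‖w - c‖ exp (π α i)` for `im w ≥ 0`, so `pS w = ann (α w, 4 ‖w - c‖ - 5/2)` on `A₁`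
(`ann_pos`), `pS w = ann (-α w, 4 (d - ‖w - c‖) - 5/2)` on `A₂` (`ann_neg`, `pS_conj`); use
`Annu.tw_apply`. On `A₀` the twist is the identity (`ann_out`, `rho_eq`, `Annu.tw_out`).
`twH_mem`: the twist fixes the centre; it is the identity on the circle of radius `exp (-5)`; the
radial homotopy of loops `u ↦ [r u]`, `r` from `1/2` to `exp (-5)`, and its image under the twist
avoid the centre; compose (`HomotopicWith.trans`, `symm`).
-/

set_option autoImplicit false

open Complex Set Metric Topology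

namespace SurfMod

variable {c d m : ℝ}

theorem Par.annu (h : Par c d m) : Annu (ann c d) m :=
  ⟨ann_per h, fun _ _ _ _ hσ hσ' e => ann_inj h hσ hσ' e⟩

theorem TwH_polar {z : ℂ} (h0 : 0 ≤ z.im) (hz : 0 < ‖z‖) :
    z = (‖z‖ : ℝ) * exp (Real.pi * (Real.arccos (z.re / ‖z‖) / Real.pi : ℝ) * I) := by
  have h1 := Complex.arg_of_im_nonneg_of_ne_zero h0 (norm_pos_iff.1 hz)
  have h2 : (Real.pi : ℂ) * (Real.arccos (z.re / ‖z‖) / Real.pi : ℝ) = (z.arg : ℝ) := by
    rw [h1, ← ofReal_mul, mul_div_cancel₀ _ Real.pi_ne_zero]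
  rw [h2, Complex.norm_mul_exp_arg_mul_I]

theorem TwH_sin (x : ℝ) : 0 ≤ Real.sin (Real.pi * (Real.arccos x / Real.pi)) := by
  rw [mul_div_cancel₀ _ Real.pi_ne_zero]
  exact Real.sin_nonneg_of_nonneg_of_le_pi (Real.arccos_nonneg x) (Real.arccos_le_pi x)

theorem TwH_alpha (c : ℝ) {A : Set ℂ} (hA : ∀ w ∈ A, 0 < ‖w - c‖) :
    ContinuousOn (fun w : ℂ => Real.arccos ((w - c).re / ‖w - c‖) / Real.pi) A := by
  refine ContinuousOn.div_const (Real.continuous_arccos.comp_continuousOn ?_) _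
  exact ContinuousOn.div (by fun_prop) (by fun_prop) fun w hw => (hA w hw).ne'

theorem TwH_small (h : Par c d m) {μ : ℝ} (hμ : μ = m ∨ μ = -m) {x : S}
    (hx : nrm x < Real.exp (-4)) : tw (ann c d) μ x = x :=
  h.annu.tw_out hμ fun φ σ _ _ e => by
    have := ann_nrm h (φ, σ)
    rw [e] at this
    exact absurd hx (not_lt.2 this)

theorem continuous_tw (h : Par c d m) {μ : ℝ} (hμ : μ = m ∨ μ = -m) :
    Continuous (tw (ann c d) μ) := by
  refine cont_of_strip _ (Real.exp_pos (-4)) (fun x hx => TwH_small h hμ hx) ?_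
  set St : Set ℂ := {w | 0 ≤ w.re ∧ w.re ≤ 12 ∧ 0 ≤ w.im} with hSt
  have hn : Continuous fun w : ℂ => ‖w - c‖ := by fun_prop
  have cS : IsClosed St :=
    (isClosed_le continuous_const continuous_re).inter
      ((isClosed_le continuous_re continuous_const).inter
        (isClosed_le continuous_const continuous_im))
  let A₁ : Set ℂ := St ∩ {w | 5 / 8 ≤ ‖w - c‖ ∧ ‖w - c‖ ≤ 7 / 8}
  let A₂ : Set ℂ := St ∩ {w | d - 7 / 8 ≤ ‖w - c‖ ∧ ‖w - c‖ ≤ d - 5 / 8}
  let A₀ : Set ℂ := St ∩ {w | (‖w - c‖ ≤ 5 / 8 ∨ 7 / 8 ≤ ‖w - c‖) ∧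
    (‖w - c‖ ≤ d - 7 / 8 ∨ d - 5 / 8 ≤ ‖w - c‖)}
  have c1 : IsClosed A₁ :=
    cS.inter ((isClosed_le continuous_const hn).inter (isClosed_le hn continuous_const))
  have c2 : IsClosed A₂ :=
    cS.inter ((isClosed_le continuous_const hn).inter (isClosed_le hn continuous_const))
  have c0 : IsClosed A₀ :=
    cS.inter (((isClosed_le hn continuous_const).union (isClosed_le continuous_const hn)).inter
      ((isClosed_le hn continuous_const).union (isClosed_le continuous_const hn)))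
  have k1 : ContinuousOn (fun w => tw (ann c d) μ (pS w)) A₁ := by
    have hp : ∀ w ∈ A₁, 0 < ‖w - c‖ := fun w hw => by have := hw.2.1; linarith only [this]
    have ha := TwH_alpha c hp
    have hs : ContinuousOn (fun w : ℂ => 4 * ‖w - c‖ - 5 / 2) A₁ := by fun_prop
    refine ((continuous_ann h).comp_continuousOn
      ((ha.add (continuousOn_const (c := μ) |>.mul hs)).prodMk hs)).congr ?_
    intro w hw
    have hσ : 4 * ‖w - c‖ - 5 / 2 ∈ Icc (0 : ℝ) 1 :=
      ⟨by have := hw.2.1; linarith only [this], by have := hw.2.2; linarith only [this]⟩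
    have e : pS w = ann c d (Real.arccos ((w - c).re / ‖w - c‖) / Real.pi,
        4 * ‖w - c‖ - 5 / 2) := by
      rw [ann_pos _ (TwH_sin _), rho_eq hσ,
        show 5 / 8 + (4 * ‖w - c‖ - 5 / 2) / 4 = ‖w - c‖ by ring,
        ← TwH_polar (by simpa using hw.1.2.2) (hp w hw), add_sub_cancel]
    show tw (ann c d) μ (pS w) = _
    rw [e, h.annu.tw_apply μ _ hσ]
    rfl
  have k2 : ContinuousOn (fun w => tw (ann c d) μ (pS w)) A₂ := by
    have hp : ∀ w ∈ A₂, 0 < ‖w - c‖ := fun w hw => by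
      have h1 := hw.2.1
      have h2 := hw.2.2
      have h3 := norm_nonneg (w - c)
      rcases h with ⟨-, hd, -⟩ | ⟨-, hd, -⟩ | ⟨-, hd, -⟩ <;> rw [hd] at h1 h2 <;> linarith only [h2, h3, h1]
    have ha := (TwH_alpha c hp).neg
    have hs : ContinuousOn (fun w : ℂ => 4 * (d - ‖w - c‖) - 5 / 2) A₂ := by fun_prop
    refine ((continuous_ann h).comp_continuousOn
      ((ha.add (continuousOn_const (c := μ) |>.mul hs)).prodMk hs)).congr ?_
    intro w hw
    have hσ : 4 * (d - ‖w - c‖) - 5 / 2 ∈ Icc (0 : ℝ) 1 :=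
      ⟨by have := hw.2.2; linarith only [this], by have := hw.2.1; linarith only [this]⟩
    have e : pS w = ann c d (-(Real.arccos ((w - c).re / ‖w - c‖) / Real.pi),
        4 * (d - ‖w - c‖) - 5 / 2) := by
      rw [ann_neg h _ (by rw [mul_neg, Real.sin_neg]; exact neg_nonpos.2 (TwH_sin _)), rho_eq hσ,
        show d - (5 / 8 + (4 * (d - ‖w - c‖) - 5 / 2) / 4) = ‖w - c‖ by ring, ← pS_conj w]
      congr 1
      have h1 := congrArg (starRingEnd ℂ) (TwH_polar (z := w - c) (by simpa using hw.1.2.2)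
        (hp w hw))
      rw [map_sub, conj_ofReal, map_mul, conj_ofReal, ← exp_conj, map_mul, map_mul, conj_ofReal,
        conj_ofReal, conj_I] at h1
      rw [ofReal_neg, mul_neg, neg_mul, ← mul_neg, ← h1, add_sub_cancel]
    show tw (ann c d) μ (pS w) = _
    rw [e, h.annu.tw_apply μ _ hσ]
    rfl
  have k0 : ContinuousOn (fun w => tw (ann c d) μ (pS w)) A₀ := by
    refine continuous_pS.continuousOn.congr fun w hw => h.annu.tw_out hμ fun φ σ s0 s1 e => ?_
    have h1 := ann_out h hw.1.1 hw.1.2.1 φ σ e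
    rw [rho_eq ⟨s0.le, s1.le⟩] at h1
    obtain ⟨h2, h3⟩ := hw.2
    rcases h1 with h1 | h1
    · rcases h2 with h2 | h2 <;> linarith only [s0, h1, h2, s1]
    · rcases h3 with h3 | h3 <;> linarith only [s1, h1, h3, s0]
  refine ((k1.union_of_isClosed k2 c1 c2).union_of_isClosed k0 (c1.union c2) c0).mono ?_
  intro w hw
  by_cases a1 : 5 / 8 ≤ ‖w - c‖ ∧ ‖w - c‖ ≤ 7 / 8
  · exact Or.inl (Or.inl ⟨hw, a1⟩)
  by_cases a2 : d - 7 / 8 ≤ ‖w - c‖ ∧ ‖w - c‖ ≤ d - 5 / 8
  · exact Or.inl (Or.inr ⟨hw, a2⟩)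
  rw [not_and_or, not_le, not_le] at a1 a2
  exact Or.inr ⟨hw, a1.imp le_of_lt le_of_lt, a2.imp le_of_lt le_of_lt⟩

/-- The twist as a homeomorphism. -/
noncomputable def twH (h : Par c d m) : S ≃ₜ S where
  toFun := tw (ann c d) m
  invFun := tw (ann c d) (-m)
  left_inv := h.annu.tw_tw m
  right_inv x := by simpa using h.annu.tw_tw (-m) x
  continuous_toFun := continuous_tw h (Or.inl rfl)
  continuous_invFun := continuous_tw h (Or.inr rfl)

/-- The radius of the radial homotopy. -/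
noncomputable def TwH_r (t : unitInterval) : ℝ := (1 - t) / 2 + t * Real.exp (-5)

theorem TwH_r_mem (t : unitInterval) : 0 < TwH_r t ∧ TwH_r t ≤ 1 := by
  have h0 := t.2.1
  have h1 := t.2.2
  have e0 := Real.exp_pos (-5)
  have e1 : Real.exp (-5) ≤ 1 := Real.exp_le_one_iff.2 (by norm_num)
  unfold TwH_r
  constructor
  · rcases h0.eq_or_lt with h | h
    · rw [← h]; norm_num
    · have := mul_pos h e0
      linarith only [h1, this]
  · linarith only [h1, h0, e1, mul_nonneg_of_nonpos_of_nonpos (Mathlib.Tactic.Linarith.sub_nonpos_of_le h0) (Mathlib.Tactic.Linarith.sub_nonpos_of_le e1)]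

theorem TwH_ball (p : unitInterval × Circle) :
    (TwH_r p.1 : ℂ) * p.2 ∈ closedBall (0 : ℂ) 1 := by
  simp only [mem_closedBall, dist_zero_right, norm_mul, norm_real, Circle.norm_coe, mul_one,
    Real.norm_eq_abs, abs_of_pos (TwH_r_mem p.1).1]
  exact (TwH_r_mem p.1).2

/-- The radial family of loops. -/
noncomputable def TwH_fam : C(unitInterval × Circle, S) :=
  ⟨fun p => Quot.mk _ ⟨(TwH_r p.1 : ℂ) * p.2, TwH_ball p⟩,
    continuous_quot_mk.comp (Continuous.subtype_mk (by unfold TwH_r; fun_prop) TwH_ball)⟩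

theorem TwH_nrm (t : unitInterval) (u : Circle) : nrm (TwH_fam (t, u)) = TwH_r t := by
  show ‖(TwH_r t : ℂ) * u‖ = _
  rw [norm_mul, norm_real, Circle.norm_coe, mul_one, Real.norm_eq_abs,
    abs_of_pos (TwH_r_mem t).1]

theorem TwH_ne (t : unitInterval) (u : Circle) : TwH_fam (t, u) ≠ ctr 3 := fun e => by
  have h := TwH_nrm t u
  rw [e, nrm_ctr] at h
  exact (TwH_r_mem t).1.ne h

theorem twH_mem (h : Par c d m) : twH h ∈ HomeoPos 3 := by
  have hc : twH h (ctr 3) = ctr 3 := h.annu.tw_out (Or.inl rfl) fun φ σ _ _ => ann_ne (φ, σ)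
  refine ⟨hc, ?_⟩
  let L : C(Circle, S) := TwH_fam.comp ⟨fun u => (1, u), by fun_prop⟩
  let H : ContinuousMap.Homotopy (loop 3) L :=
    { toContinuousMap := TwH_fam
      map_zero_left := fun u => by
        show Quot.mk _ _ = Quot.mk _ _
        congr 2
        simp [TwH_r]
        ring
      map_one_left := fun u => rfl }
  have e : ((twH h : C(S, S))).comp L = L := by
    ext u
    refine TwH_small h (Or.inl rfl) ?_
    show nrm (TwH_fam (1, u)) < _
    rw [TwH_nrm]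
    simp [TwH_r]
    norm_num
  have h1 : ContinuousMap.HomotopicWith (loop 3) L fun f => ∀ u, f u ≠ ctr 3 :=
    ⟨⟨H, fun t u => TwH_ne t u⟩⟩
  have h2 : ContinuousMap.HomotopicWith (((twH h : C(S, S))).comp (loop 3)) L
      fun f => ∀ u, f u ≠ ctr 3 :=
    ⟨⟨((ContinuousMap.Homotopy.refl (twH h : C(S, S))).comp H).cast rfl e, fun t u e' =>
      TwH_ne t u ((twH h).injective (e'.trans hc.symm))⟩⟩
  exact h1.trans h2.symm

end SurfMod
end

-- merged part: Pool.Agent.Work.MP_497bf6_gt.Top.Ln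
section
/-!
Holonomies along maps from vector spaces, homotopy squares, a gluing lemma for continuity and the
holonomy of a map to a rose.

Plan. `ln_path`: a real normed space is simply connected (`SimplyConnectedSpace.ofContractible`,
`SimplyConnectedSpace.paths_homotopic`); turn `q` into a path and use `Hol.cast`.
`square`: extend `K` to `ℝ × ℝ` by `projIcc`, all four values are values of `ln` at corners.
`cont_floor`: at a point `z` with `j = ⌊f z⌋` near `z` the floor is `j` or (`f z = j`) `j - 1`;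
use `tendsto` of both `G j` and `G (j - 1)` (or a locally finite closed cover
`{z | j ≤ f z ≤ j + 1}` on which the map is `G j`).
`exists_rose`: `Neuwirth.exists_hol` for `h x z = (sd l (c l x))⁻¹ * sd l (c l z)` if `c l x = -1`
for some (unique) `l`, and `1` otherwise. Near `x` with `c l x = -1` use `re (c l z) < 0`; if then
`c l z ≠ -1` the sign of `im (c l z)` is locally constant and `z` lies on no gate. The two formulas
follow from `Hol.eq_of_loc` for the pull back (`Hol.comap`) to the open subset as a subtype.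
-/

set_option autoImplicit false

open Set Filter Topology unitInterval

namespace Neuwirth.Hol

variable {X : Type*} [TopologicalSpace X] {G : Type*} [Group G]
  {E : Type*} [NormedAddCommGroup E] [NormedSpace ℝ E]
  {E' : Type*} [NormedAddCommGroup E'] [NormedSpace ℝ E']

/-- The holonomy of the image of a segment. -/
noncomputable def ln (Φ : Hol X G) (f : C(E, X)) (a b : E) : G :=
  Φ.H ((Path.segment a b).map f.continuous)

theorem ln_path (Φ : Hol X G) (f : C(E, X)) {x y : X} (p : Path x y) (q : I → E)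
    (hq : Continuous q) (h : ∀ s, p s = f (q s)) : Φ.H p = Φ.ln f (q 0) (q 1) := by
  let r : Path (q 0) (q 1) := ⟨⟨q, hq⟩, rfl, rfl⟩
  have hx : f (q 0) = x := (h 0).symm.trans p.source
  have hy : f (q 1) = y := (h 1).symm.trans p.target
  have e : p.cast hx hy = r.map f.continuous := Path.ext (funext h)
  rw [← Φ.cast p hx hy, e]
  exact Φ.homot _ _ ((SimplyConnectedSpace.paths_homotopic r (Path.segment _ _)).map f)

theorem ln_trans (Φ : Hol X G) (f : C(E, X)) (a b c : E) :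
    Φ.ln f a b * Φ.ln f b c = Φ.ln f a c := by
  unfold ln
  rw [← Φ.trans, ← Path.map_trans]
  exact Φ.homot _ _ ((SimplyConnectedSpace.paths_homotopic _ _).map f)

theorem ln_self (Φ : Hol X G) (f : C(E, X)) (a : E) : Φ.ln f a a = 1 := by
  exact left_eq_mul.1 (Φ.ln_trans f a a a).symm

theorem ln_symm (Φ : Hol X G) (f : C(E, X)) (a b : E) : Φ.ln f b a = (Φ.ln f a b)⁻¹ := by
  exact eq_inv_of_mul_eq_one_right ((Φ.ln_trans f a b a).trans (Φ.ln_self f a))

theorem ln_congr (Φ : Hol X G) (f : C(E, X)) (f' : C(E', X)) (a b : E) (q : I → E')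
    (hq : Continuous q) (h : ∀ s : I, f (a + (s : ℝ) • (b - a)) = f' (q s)) :
    Φ.ln f a b = Φ.ln f' (q 0) (q 1) := by
  refine Φ.ln_path f' _ q hq fun s => Eq.trans (congrArg f ?_) (h s)
  rw [Path.segment_apply, AffineMap.lineMap_apply, vsub_eq_sub, vadd_eq_add, add_comm]

theorem ln_congr' (Φ : Hol X G) (f : C(E, X)) (f' : C(E', X)) (a b : E) (a' b' : E')
    (h : ∀ s ∈ Icc (0 : ℝ) 1, f (a + s • (b - a)) = f' (a' + s • (b' - a'))) :
    Φ.ln f a b = Φ.ln f' a' b' := by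
  have := Φ.ln_congr f f' a b (fun s : I => a' + (s : ℝ) • (b' - a')) (by fun_prop)
    fun s => h s s.2
  simpa using this

theorem const (Φ : Hol X G) {x y : X} (p : Path x y) (h : ∀ s, p s = x) : Φ.H p = 1 := by
  have hy : x = y := (h 1).symm.trans p.target
  subst hy
  have e : p = Path.refl x := Path.ext (funext h)
  rw [e, Φ.refl]

theorem square (Φ : Hol X G) (K : I × I → X) (hK : Continuous K) {x0 y0 x1 y1 : X}
    (p0 : Path x0 y0) (p1 : Path x1 y1) (ta : Path x0 x1) (tb : Path y0 y1)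
    (h0 : ∀ s, p0 s = K (0, s)) (h1 : ∀ s, p1 s = K (1, s))
    (ha : ∀ t, ta t = K (t, 0)) (hb : ∀ t, tb t = K (t, 1)) :
    Φ.H p0 * Φ.H tb = Φ.H ta * Φ.H p1 := by
  let f : C(ℝ × ℝ, X) := ⟨fun u => K (projIcc 0 1 zero_le_one u.1, projIcc 0 1 zero_le_one u.2),
    hK.comp ((continuous_projIcc.comp continuous_fst).prodMk
      (continuous_projIcc.comp continuous_snd))⟩
  have hf : ∀ s t : I, f ((s : ℝ), (t : ℝ)) = K (s, t) := fun s t => by
    change K (projIcc 0 1 zero_le_one (s : ℝ), projIcc 0 1 zero_le_one (t : ℝ)) = _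
    rw [projIcc_val, projIcc_val]
  rw [Φ.ln_path f p0 (fun s => (((0 : I) : ℝ), (s : ℝ))) (by fun_prop)
      fun s => (h0 s).trans (hf 0 s).symm,
    Φ.ln_path f p1 (fun s => (((1 : I) : ℝ), (s : ℝ))) (by fun_prop)
      fun s => (h1 s).trans (hf 1 s).symm,
    Φ.ln_path f ta (fun s => ((s : ℝ), ((0 : I) : ℝ))) (by fun_prop)
      fun s => (ha s).trans (hf s 0).symm,
    Φ.ln_path f tb (fun s => ((s : ℝ), ((1 : I) : ℝ))) (by fun_prop)
      fun s => (hb s).trans (hf s 1).symm, Φ.ln_trans, Φ.ln_trans]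

theorem Ln_sub (Φ : Hol X G) (S : Set X) (g : X → G)
    (hloc : ∀ x ∈ S, ∃ U ∈ 𝓝 x, ∀ (y z : X) (p : Path y z), (∀ s, p s ∈ U) →
      Φ.H p = (g y)⁻¹ * g z) {y z : X} (p : Path y z) (hp : ∀ s, p s ∈ S) :
    Φ.H p = (g y)⁻¹ * g z := by
  have hy : y ∈ S := p.source ▸ hp 0
  have hz : z ∈ S := p.target ▸ hp 1
  let r : Path (⟨y, hy⟩ : S) ⟨z, hz⟩ :=
    ⟨⟨fun s => ⟨p s, hp s⟩, p.continuous.subtype_mk _⟩, Subtype.ext p.source, Subtype.ext p.target⟩
  refine (Φ.comap ⟨Subtype.val, continuous_subtype_val⟩).eq_of_loc (fun x : S => g x)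
    (fun x => ?_) r
  obtain ⟨U, hU, h⟩ := hloc x x.2
  exact ⟨Subtype.val ⁻¹' U, continuous_subtype_val.continuousAt.preimage_mem_nhds hU,
    fun a b q hq => h _ _ _ hq⟩

end Neuwirth.Hol

namespace SurfMod

open Neuwirth

theorem cont_floor {Y Z : Type*} [TopologicalSpace Y] [TopologicalSpace Z] (f : Z → ℝ)
    (hf : Continuous f) (G : ℤ → Z → Y) (hG : ∀ j, Continuous (G j))
    (h : ∀ (j : ℤ) (z : Z), f z = j + 1 → G j z = G (j + 1) z) :
    Continuous fun z => G ⌊f z⌋ z := by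
  refine continuous_iff_continuousAt.2 fun z => ?_
  obtain ⟨j, hj⟩ : ∃ j, j = ⌊f z⌋ := ⟨_, rfl⟩
  have h1 : f z < j + 1 := hj ▸ Int.lt_floor_add_one _
  have h2 : (j : ℝ) ≤ f z := hj ▸ Int.floor_le _
  have e1 : ∀ᶠ w in 𝓝 z, f w < j + 1 := hf.continuousAt.eventually (gt_mem_nhds h1)
  rw [ContinuousAt, ← hj]
  rcases h2.eq_or_lt with h2 | h2
  · have h3 : (j : ℝ) - 1 < f z := by linarith
    have e2 : ∀ᶠ w in 𝓝 z, (j : ℝ) - 1 < f w := hf.continuousAt.eventually (lt_mem_nhds h3)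
    have h4 : G (j - 1) z = G j z := by
      have := h (j - 1) z (by push_cast; linarith)
      rwa [sub_add_cancel] at this
    intro U hU
    have e3 : ∀ᶠ w in 𝓝 z, G j w ∈ U := (hG j).continuousAt hU
    have e4 : ∀ᶠ w in 𝓝 z, G (j - 1) w ∈ U := (hG (j - 1)).continuousAt (h4 ▸ hU)
    rw [mem_map]
    filter_upwards [e1, e2, e3, e4] with w a1 a2 a3 a4
    change G ⌊f w⌋ w ∈ U
    rcases lt_or_ge (f w) j with a5 | a5
    · rw [(Int.floor_eq_iff (z := j - 1)).2 ⟨by push_cast; linarith, by push_cast; linarith⟩]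
      exact a4
    · rw [Int.floor_eq_iff.2 ⟨a5, a1⟩]
      exact a3
  · have e2 : ∀ᶠ w in 𝓝 z, (j : ℝ) < f w := hf.continuousAt.eventually (lt_mem_nhds h2)
    refine (hG j).continuousAt.congr' ?_
    filter_upwards [e1, e2] with w a1 a2
    rw [Int.floor_eq_iff.2 ⟨a2.le, a1⟩]

/-- The side of a gate. -/
noncomputable def sd {ι : Type} (l : ι) (z : ℂ) : FreeGroup ι :=
  if z.im ≤ 0 then FreeGroup.of l else 1

theorem Ln_im {z : ℂ} (h : ‖z‖ = 1) (h1 : z ≠ 1) (h2 : z ≠ -1) : z.im ≠ 0 := fun h0 => by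
  have e : z = (z.re : ℂ) := Complex.ext rfl (by simpa using h0)
  rw [e, Complex.norm_real, Real.norm_eq_abs] at h
  rcases eq_or_eq_neg_of_abs_eq h with h3 | h3
  · exact h1 (by rw [e, h3]; simp)
  · exact h2 (by rw [e, h3]; simp)

theorem Ln_sd {ι : Type} (l : ι) {z : ℂ} (h : z.im ≠ 0) : ∀ᶠ w in 𝓝 z, sd l w = sd l z := by
  rcases lt_or_gt_of_ne h with h | h
  · filter_upwards [Complex.continuous_im.continuousAt.eventually (gt_mem_nhds h)] with w hw
    rw [sd, sd, if_pos hw.le, if_pos h.le]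
  · filter_upwards [Complex.continuous_im.continuousAt.eventually (lt_mem_nhds h)] with w hw
    rw [sd, sd, if_neg (not_le.2 hw), if_neg (not_le.2 h)]

theorem exists_rose {X : Type} [TopologicalSpace X] {ι : Type} [Finite ι] (c : ι → X → ℂ)
    (hc : ∀ l, Continuous (c l)) (h1 : ∀ l x, ‖c l x‖ = 1)
    (hd : ∀ l l' x, l ≠ l' → c l x = 1 ∨ c l' x = 1) :
    ∃ Φ : Hol X (FreeGroup ι),
      (∀ (x y : X) (p : Path x y), (∀ s l, c l (p s) ≠ -1) → Φ.H p = 1) ∧
      ∀ (l : ι) (x y : X) (p : Path x y), (∀ s, c l (p s) ≠ 1) →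
        Φ.H p = (sd l (c l x))⁻¹ * sd l (c l y) := by
  classical
  have ne : (1 : ℂ) ≠ -1 := by norm_num
  obtain ⟨h, hA, hB⟩ : ∃ h : X → X → FreeGroup ι,
      (∀ l x z, c l x = -1 → h x z = (sd l (c l x))⁻¹ * sd l (c l z)) ∧
      ∀ x z, (∀ l, c l x ≠ -1) → h x z = 1 := by
    refine ⟨fun x z => if hx : ∃ l, c l x = -1 then
      (sd hx.choose (c hx.choose x))⁻¹ * sd hx.choose (c hx.choose z) else 1,
      fun l x z hl => ?_, fun x z hx => dif_neg (not_exists.2 hx)⟩
    have hx : ∃ l, c l x = -1 := ⟨l, hl⟩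
    have e : hx.choose = l := by
      by_contra e
      rcases hd _ _ x e with e1 | e1
      · exact ne (e1.symm.trans hx.choose_spec)
      · exact ne (e1.symm.trans hl)
    simp only [dif_pos hx, e]
  have hC : ∀ l x, c l x ≠ 1 →
      ∀ᶠ z in 𝓝 x, h x z = (sd l (c l x))⁻¹ * sd l (c l z) := fun l x hx => by
    by_cases h2 : c l x = -1
    · exact Eventually.of_forall fun z => hA l x z h2
    · have h3 : ∀ l', c l' x ≠ -1 := fun l' => by
        rcases eq_or_ne l l' with rfl | e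
        · exact h2
        · rw [(hd l l' x e).resolve_left hx]
          exact ne
      filter_upwards [(hc l).continuousAt.eventually (Ln_sd l (Ln_im (h1 l x) hx h2))] with z hz
      rw [hB x z h3, hz, inv_mul_cancel]
  obtain ⟨Φ, hΦ⟩ := exists_hol h (fun x => by
      by_cases hx : ∃ l, c l x = -1
      · obtain ⟨l, hl⟩ := hx
        rw [hA l x x hl, inv_mul_cancel]
      · exact hB x x (not_exists.1 hx)) fun x => by
    by_cases hx : ∃ l, c l x = -1
    · obtain ⟨l, hl⟩ := hx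
      have h2 : c l x ≠ 1 := fun e => ne (e.symm.trans hl)
      filter_upwards [(hc l).continuousAt.eventually_ne h2] with z hz
      filter_upwards [hC l z hz] with w hw
      rw [hA l x w hl, hA l x z hl, hw, mul_assoc, mul_inv_cancel_left]
    · have h2 := not_exists.1 hx
      filter_upwards [eventually_all.2 fun l => (hc l).continuousAt.eventually_ne (h2 l)] with z hz
      exact Eventually.of_forall fun w => by rw [hB x w h2, hB x z h2, hB z w hz, one_mul]
  refine ⟨Φ, fun x y p hp => ?_, fun l x y p hp => ?_⟩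
  · have := Φ.Ln_sub {x | ∀ l, c l x ≠ -1} (fun _ => 1) (fun a ha => ?_) p hp
    · simpa using this
    obtain ⟨U, hU, h2⟩ := hΦ a
    exact ⟨U, hU, fun y z q hq => by rw [h2 y z q hq, hB a y ha, hB a z ha]⟩
  · refine Φ.Ln_sub {x | c l x ≠ 1} (fun x => sd l (c l x)) (fun a ha => ?_) p hp
    obtain ⟨U, hU, h2⟩ := hΦ a
    refine ⟨_, inter_mem hU (hC l a ha), fun y z q hq => ?_⟩
    have e1 : h a y = (sd l (c l a))⁻¹ * sd l (c l y) := q.source ▸ (hq 0).2
    have e2 : h a z = (sd l (c l a))⁻¹ * sd l (c l z) := q.target ▸ (hq 1).2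
    rw [h2 y z q fun s => (hq s).1, e1, e2, mul_inv_rev, inv_inv, mul_assoc, mul_inv_cancel_left]

end SurfMod
end

-- merged part: Pool.Agent.Work.MP_497bf6_gt.Top.Gate
section
/-!
The holonomy of the punctured surface with values in the free group of rank six.

Plan. `cf l θ` runs once round the unit circle on the arc `arc l` and once backwards on the arc
`arc l + 2` (mod 12), and is `1` elsewhere; continuity by `cont_floor`; it descends to the surface
by `lift_eq` (`cX_pX`), continuity on `X` by `pX_quot`. `exists_Phi`: take `Φ` from `exists_rose`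
and apply `Hol.eq_of_loc` to `Φ.comap pX` with the gauge `wd (cell w.re)`: at `w` with
`re w ∉ ℤ + 1/2` use the strip `|re - j| < 1/2` (`j` the nearest integer; no gate, `cell = j`), at
`re w = j + 1/2` the strip `j < re < j + 1` (there `cf (idx j) ≠ 1`, and
`wd (cell θ) = wd j * sd` if `j % 4 < 2`, `wd (j + 1) * sd` otherwise).
-/

set_option autoImplicit false

open Complex Set Metric Topology Neuwirth

namespace SurfMod

/-- The free group on `a₁, b₁, a₂, b₂, a₃, b₃`. -/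
abbrev F6 : Type := FreeGroup (Fin 6)

/-- The letter carried by the arc `j`. -/
def idx (j : ℤ) : Fin 6 := ⟨(2 * (j % 12 / 4) + j % 2).toNat, by omega⟩

/-- The first arc that carries the letter `l`. -/
def arc (l : Fin 6) : ℤ := 4 * ((l : ℕ) / 2) + (l : ℕ) % 2

/-- The signed letter of the arc `j`. -/
def lett (j : ℤ) : F6 := if j % 4 < 2 then FreeGroup.of (idx j) else (FreeGroup.of (idx j))⁻¹

/-- The boundary word. -/
def bdry : F6 :=
  open FreeGroup in
  of 0 * of 1 * (of 0)⁻¹ * (of 1)⁻¹ * (of 2 * of 3 * (of 2)⁻¹ * (of 3)⁻¹) *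
    (of 4 * of 5 * (of 4)⁻¹ * (of 5)⁻¹)

theorem exists_wd : ∃ wd : ℤ → F6, wd 0 = 1 ∧ ∀ j, wd (j + 1) = wd j * lett j := by
  refine ⟨fun j => match j with
    | Int.ofNat n => Nat.rec 1 (fun k x => x * lett k) n
    | Int.negSucc n => Nat.rec (lett (Int.negSucc 0))⁻¹
        (fun k x => x * (lett (Int.negSucc (k + 1)))⁻¹) n, rfl, fun j => ?_⟩
  rcases j with n | _ | n
  · rfl
  · exact (inv_mul_cancel _).symm
  · exact (inv_mul_cancel_right _ _).symm

/-- The word read from the vertex `0` to the vertex `j`. -/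
noncomputable def wd : ℤ → F6 := exists_wd.choose

theorem wd_zero : wd 0 = 1 := exists_wd.choose_spec.1

theorem wd_succ (j : ℤ) : wd (j + 1) = wd j * lett j := exists_wd.choose_spec.2 j

theorem wd_twelve : wd 12 = bdry := by
  have h (j k : ℤ) (x : F6) (e : k = j + 1) (e' : lett j = x) : wd k = wd j * x := by
    rw [e, wd_succ, e']
  rw [h 11 12 (FreeGroup.of 5)⁻¹ rfl rfl, h 10 11 (FreeGroup.of 4)⁻¹ rfl rfl,
    h 9 10 (FreeGroup.of 5) rfl rfl, h 8 9 (FreeGroup.of 4) rfl rfl,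
    h 7 8 (FreeGroup.of 3)⁻¹ rfl rfl, h 6 7 (FreeGroup.of 2)⁻¹ rfl rfl,
    h 5 6 (FreeGroup.of 3) rfl rfl, h 4 5 (FreeGroup.of 2) rfl rfl,
    h 3 4 (FreeGroup.of 1)⁻¹ rfl rfl, h 2 3 (FreeGroup.of 0)⁻¹ rfl rfl,
    h 1 2 (FreeGroup.of 1) rfl rfl, h 0 1 (FreeGroup.of 0) rfl rfl, wd_zero]
  simp only [bdry, mul_assoc, one_mul]

theorem arc_mod (l : Fin 6) : arc l % 4 < 2 := by
  unfold arc
  omega

theorem idx_arc (l : Fin 6) : idx (arc l) = l := by
  apply Fin.ext
  have := l.2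
  simp only [idx, arc]
  omega

theorem lett_arc (l : Fin 6) : lett (arc l) = FreeGroup.of l := by
  rw [lett, if_pos (arc_mod l), idx_arc]

theorem idx_cases (j : ℤ) : ∃ n : ℤ, (j % 4 < 2 ∧ j = arc (idx j) + 12 * n) ∨
    (¬ j % 4 < 2 ∧ j = arc (idx j) + 2 + 12 * n) := by
  refine ⟨j / 12, ?_⟩
  simp only [idx, arc]
  omega

/-- The vertex in whose sector `θ` lies. -/
noncomputable def cell (θ : ℝ) : ℤ := if ⌊θ⌋ % 4 < 2 then ⌊θ + 1 / 2⌋ else ⌈θ - 1 / 2⌉

theorem cell_eq {θ : ℝ} {j : ℤ} (h1 : (j : ℝ) - 1 / 2 < θ) (h2 : θ < j + 1 / 2) : cell θ = j := by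
  unfold cell
  split_ifs
  · exact Int.floor_eq_iff.2 ⟨by linarith only [h1], by linarith only [h2]⟩
  · exact Int.ceil_eq_iff.2 ⟨by linarith only [h1], by linarith only [h2]⟩

theorem cell_int (j : ℤ) : cell j = j := cell_eq (by linarith only []) (by linarith)

theorem cell_add (θ : ℝ) : cell (θ + 12) = cell θ + 12 := by
  unfold cell
  have e1 : θ + 12 + 1 / 2 = θ + 1 / 2 + 12 := by ring
  have e2 : θ + 12 - 1 / 2 = θ - 1 / 2 + 12 := by ring
  have e3 : (⌊θ⌋ + 12) % 4 = ⌊θ⌋ % 4 := by omega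
  rw [e1, e2, Int.floor_add_ofNat, Int.floor_add_ofNat, Int.ceil_add_ofNat, e3]
  split_ifs <;> rfl

theorem Gate_half (j : ℤ) : cell (j + 1 / 2) = if j % 4 < 2 then j + 1 else j := by
  have e : ⌊(j : ℝ) + 1 / 2⌋ = j := Int.floor_eq_iff.2 ⟨by linarith only [], by linarith⟩
  unfold cell
  rw [e]
  split_ifs
  · exact Int.floor_eq_iff.2 ⟨by push_cast; linarith only [], by push_cast; linarith only []⟩
  · exact Int.ceil_eq_iff.2 ⟨by linarith only [], by linarith only []⟩
theorem cell_glue {j : ℤ} (hj : j % 4 < 2) {x : ℝ} (h1 : (j : ℝ) ≤ x) (h2 : x ≤ j + 1) :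
    (cell x = j ∨ cell x = j + 1) ∧ cell (2 * j + 3 - x) = 2 * j + 3 - cell x := by
  rcases lt_trichotomy x (j + 1 / 2) with h | h | h
  · rw [cell_eq (j := j) (by linarith only [h1]) h,
      cell_eq (j := j + 3) (by push_cast; linarith only [h]) (by push_cast; linarith only [h1])]
    exact ⟨Or.inl rfl, by omega⟩
  · have e : (2 * j + 3 - x : ℝ) = (j + 2 : ℤ) + 1 / 2 := by push_cast; linarith only [h]
    rw [e, h, Gate_half, Gate_half, if_pos hj, if_neg (by omega)]
    exact ⟨Or.inr rfl, by omega⟩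
  · rw [cell_eq (j := j + 1) (by push_cast; linarith only [h]) (by push_cast; linarith only [h2]),
      cell_eq (j := j + 2) (by push_cast; linarith only [h2]) (by push_cast; linarith only [h])]
    exact ⟨Or.inr rfl, by omega⟩

/-- The coordinate functions of the map to the rose. -/
noncomputable def cf (l : Fin 6) (θ : ℝ) : ℂ :=
  if idx ⌊θ⌋ = l then exp ((if ⌊θ⌋ % 4 < 2 then 1 else -1) * (2 * Real.pi * θ) * I) else 1

/-- The standard parametrisation of the unit circle. -/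
noncomputable def Gate_E (θ : ℝ) : ℂ := exp ((2 * Real.pi * θ : ℝ) * I)

theorem Gate_E_add (θ : ℝ) (n : ℤ) : Gate_E (θ + n) = Gate_E θ := by
  have e : ((2 * Real.pi * (θ + n) : ℝ) : ℂ) * I =
      (2 * Real.pi * θ : ℝ) * I + n * (2 * Real.pi * I) := by
    push_cast
    ring
  rw [Gate_E, e, exp_add, exp_int_mul_two_pi_mul_I, mul_one, Gate_E]

theorem Gate_E_int (n : ℤ) : Gate_E n = 1 := by
  rw [← zero_add (n : ℝ), Gate_E_add]
  simp [Gate_E]

theorem Gate_E_inj {θ θ' : ℝ} (h : Gate_E θ = Gate_E θ') : ∃ n : ℤ, θ = θ' + n := by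
  obtain ⟨n, hn⟩ := exp_eq_exp_iff_exists_int.1 h
  refine ⟨n, mul_left_cancel₀ Real.two_pi_pos.ne' ?_⟩
  have h2 := congrArg im hn
  simp at h2
  linarith only [h2]

theorem Gate_E_half (θ : ℝ) : Gate_E (θ - 1 / 2) = -Gate_E θ := by
  have e : ((2 * Real.pi * (θ - 1 / 2) : ℝ) : ℂ) * I = (2 * Real.pi * θ : ℝ) * I - Real.pi * I := by
    push_cast
    ring
  rw [Gate_E, e, exp_sub_pi_mul_I, Gate_E]

/-- The formula for `cf` on the arc `j`. -/
noncomputable def Gate_G (l : Fin 6) (j : ℤ) (θ : ℝ) : ℂ :=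
  if idx j = l then (if j % 4 < 2 then Gate_E θ else Gate_E (-θ)) else 1

theorem Gate_cf (l : Fin 6) (θ : ℝ) : cf l θ = Gate_G l ⌊θ⌋ θ := by
  unfold cf Gate_G Gate_E
  split_ifs
  · congr 1
    push_cast
    ring
  · congr 1
    push_cast
    ring
  · rfl

theorem Gate_G_int (l : Fin 6) (j n : ℤ) : Gate_G l j n = 1 := by
  unfold Gate_G
  rw [← Int.cast_neg, Gate_E_int, Gate_E_int]
  simp

theorem Gate_cf' (l : Fin 6) {j : ℤ} {θ : ℝ} (h1 : (j : ℝ) ≤ θ) (h2 : θ ≤ j + 1) :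
    cf l θ = Gate_G l j θ := by
  rw [Gate_cf]
  rcases h2.lt_or_eq with h | h
  · rw [Int.floor_eq_iff.2 ⟨h1, h⟩]
  · have e : θ = (j + 1 : ℤ) := by push_cast; exact h
    rw [e, Gate_G_int, Gate_G_int]
theorem continuous_cf (l : Fin 6) : Continuous (cf l) := by
  have h := cont_floor (fun θ : ℝ => θ) continuous_id (Gate_G l) (fun j => ?_) fun j z hz => ?_
  · exact h.congr fun θ => (Gate_cf l θ).symm
  · unfold Gate_G Gate_E
    split_ifs <;> fun_prop
  · have e : z = (j + 1 : ℤ) := by push_cast; exact hz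
    rw [e, Gate_G_int, Gate_G_int]

/-- The coordinate functions on the punctured surface. -/
noncomputable def cX (l : Fin 6) (x : X) : ℂ := cf l (pX_quot.surjective x).choose.re

theorem cX_pX (l : Fin 6) (w : ℂ) : cX l (pX w) = cf l w.re := by
  refine lift_eq (fun w => cf l w.re) (fun w => by simp) (fun w => ?_) (fun j x hj h1 h2 => ?_)
    (congrArg Subtype.val (pX_quot.surjective (pX w)).choose_spec)
  · have e : (w + 12).re = w.re + (12 : ℤ) := by simp
    have e1 : idx (⌊w.re⌋ + 12) = idx ⌊w.re⌋ := by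
      apply Fin.ext
      simp only [idx]
      omega
    have e2 : (⌊w.re⌋ + 12) % 4 = ⌊w.re⌋ % 4 := by omega
    have e3 : -(w.re + (12 : ℤ)) = -w.re + (-12 : ℤ) := by
      push_cast
      ring
    simp only [e, Gate_cf, Int.floor_add_intCast, Gate_G, e1, e2, e3, Gate_E_add]
  · have e1 : idx (j + 2) = idx j := by
      apply Fin.ext
      simp only [idx]
      omega
    have e2 : ¬ (j + 2) % 4 < 2 := by omega
    have e3 : -(2 * j + 3 - x : ℝ) = x + (-(2 * j + 3) : ℤ) := by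
      push_cast
      ring
    simp only [ofReal_re]
    rw [Gate_cf' l h1 h2, Gate_cf' l (j := j + 2) (by push_cast; linarith) (by push_cast; linarith)]
    simp only [Gate_G, e1, e3, Gate_E_add, if_pos hj, if_neg e2]

theorem continuous_cX (l : Fin 6) : Continuous (cX l) := by
  refine pX_quot.continuous_iff.2 (((continuous_cf l).comp continuous_re).congr fun w => ?_)
  exact (cX_pX l w).symm

theorem norm_cf (l : Fin 6) (θ : ℝ) : ‖cf l θ‖ = 1 := by
  rw [Gate_cf]
  unfold Gate_G Gate_E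
  split_ifs
  exacts [norm_exp_ofReal_mul_I _, norm_exp_ofReal_mul_I _, norm_one]

theorem near_int {θ : ℝ} (h : ∀ l, 0 < (cf l θ).re) : ∃ j : ℤ, |θ - j| < 1 / 4 := by
  have h1 : 0 < Real.cos (2 * Real.pi * θ) := by
    have h2 := h (idx ⌊θ⌋)
    rw [Gate_cf, Gate_G, if_pos rfl] at h2
    split_ifs at h2
    · rwa [Gate_E, exp_ofReal_mul_I_re] at h2
    · rwa [Gate_E, exp_ofReal_mul_I_re, mul_neg, Real.cos_neg] at h2
  refine ⟨round θ, lt_of_not_ge fun h3 => ?_⟩
  have h4 := abs_sub_round θ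
  have p := Real.pi_pos
  have h5 := Real.cos_nonpos_of_pi_div_two_le_of_le (x := 2 * Real.pi * |θ - round θ|)
    (by linarith only [h3, p, mul_nonneg_of_nonpos_of_nonpos (Mathlib.Tactic.Linarith.sub_nonpos_of_le h3) (le_of_lt (Mathlib.Tactic.Linarith.sub_neg_of_lt p))]) (by linarith only [p, h4, mul_nonneg_of_nonpos_of_nonpos (Mathlib.Tactic.Linarith.sub_nonpos_of_le h4) (le_of_lt (Mathlib.Tactic.Linarith.sub_neg_of_lt p))])
  have e : 2 * Real.pi * (θ - round θ) = 2 * Real.pi * θ - (round θ : ℤ) * (2 * Real.pi) := by ring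
  rw [← abs_of_pos Real.two_pi_pos, ← abs_mul, Real.cos_abs, e, Real.cos_sub_int_mul_two_pi] at h5
  linarith only [h1, h5]

theorem Gate_arg {t : ℝ} (h0 : 0 < t) (h1 : t < 1) :
    arg (-Gate_E t) / (2 * Real.pi) + 1 / 2 = t := by
  have p := Real.pi_pos
  rw [← Gate_E_half, Gate_E, exp_mul_I,
    arg_cos_add_sin_mul_I ⟨by linarith only [h0, p, mul_pos_of_neg_of_neg (Mathlib.Tactic.Linarith.sub_neg_of_lt h0) (Mathlib.Tactic.Linarith.sub_neg_of_lt p)], by linarith only [h1, p, mul_pos_of_neg_of_neg (Mathlib.Tactic.Linarith.sub_neg_of_lt h1) (Mathlib.Tactic.Linarith.sub_neg_of_lt p)]⟩]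
  field_simp
  ring
theorem on_arc {l : Fin 6} {θ : ℝ} (h : cf l θ ≠ 1) :
    pS (θ : ℝ) = pS ((arc l + (arg (-cf l θ) / (2 * Real.pi) + 1 / 2) : ℝ) : ℂ) := by
  have h0 : θ ≠ ⌊θ⌋ := fun e => h (by rw [Gate_cf, e, Gate_G_int])
  have h1 : (⌊θ⌋ : ℝ) < θ := lt_of_le_of_ne (Int.floor_le θ) h0.symm
  have h2 := Int.lt_floor_add_one θ
  rw [Gate_cf] at h ⊢
  generalize ⌊θ⌋ = j at *
  have hl : idx j = l := by
    by_contra e
    exact h (if_neg e)
  obtain ⟨n, ⟨a, b⟩ | ⟨a, b⟩⟩ := idx_cases j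
  · have e : θ = θ - j + j := by ring
    have b' : (j : ℝ) = arc l + 12 * n := by rw [← hl]; exact_mod_cast b
    rw [Gate_G, if_pos hl, if_pos a, e, Gate_E_add, ← e, Gate_arg (by linarith) (by linarith),
      ← pS_add _ (-n)]
    congr 1
    rw [b']
    push_cast
    ring
  · have e : -θ = j + 1 - θ + (-(j + 1) : ℤ) := by
      push_cast
      ring
    have b' : (j : ℝ) = arc l + 2 + 12 * n := by rw [← hl]; exact_mod_cast b
    rw [Gate_G, if_pos hl, if_neg a, e, Gate_E_add, Gate_arg (by linarith) (by linarith),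
      pS_glue (arc_mod l) (x := arc l + (j + 1 - θ)) (by linarith) (by linarith), ← pS_add _ (-n)]
    congr 1
    rw [b']
    push_cast
    ring

theorem Gate_neg {l : Fin 6} {θ : ℝ} (h : cf l θ = -1) : ∃ n : ℤ, θ = n + 1 / 2 := by
  have e : Gate_E (0 - 1 / 2) = -1 := by
    rw [Gate_E_half]
    simp [Gate_E]
  rw [Gate_cf, Gate_G] at h
  split_ifs at h
  · obtain ⟨n, hn⟩ := Gate_E_inj (h.trans e.symm)
    exact ⟨n - 1, by push_cast; linarith only [hn]⟩
  · obtain ⟨n, hn⟩ := Gate_E_inj (h.trans e.symm)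
    exact ⟨-n, by push_cast; linarith only [hn]⟩
  · norm_num at h

theorem Gate_ne {j : ℤ} {θ : ℝ} (h1 : (j : ℝ) < θ) (h2 : θ < j + 1) : cf (idx j) θ ≠ 1 := by
  intro h
  have hn : ∃ n : ℤ, θ = n := by
    rw [Gate_cf' _ h1.le h2.le, Gate_G, if_pos rfl, ← Gate_E_int 0] at h
    split_ifs at h
    · obtain ⟨n, hn⟩ := Gate_E_inj h
      exact ⟨n, by simpa using hn⟩
    · obtain ⟨n, hn⟩ := Gate_E_inj h
      exact ⟨-n, by push_cast at hn ⊢; linarith only [hn]⟩
  obtain ⟨n, rfl⟩ := hn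
  have h3 : j < n := by exact_mod_cast h1
  have h4 : n < j + 1 := by exact_mod_cast h2
  omega

theorem Gate_pos {j : ℤ} {θ : ℝ} (h1 : (j : ℝ) < θ) (h2 : θ < j + 1 / 2) : 0 < (Gate_E θ).im := by
  have e : θ = θ - j + j := by ring
  have p := Real.pi_pos
  rw [e, Gate_E_add, Gate_E, exp_ofReal_mul_I_im]
  exact Real.sin_pos_of_pos_of_lt_pi (by linarith only [h1, p, mul_pos_of_neg_of_neg (Mathlib.Tactic.Linarith.sub_neg_of_lt h1) (Mathlib.Tactic.Linarith.sub_neg_of_lt p)]) (by linarith only [h2, p, mul_pos_of_neg_of_neg (Mathlib.Tactic.Linarith.sub_neg_of_lt h2) (Mathlib.Tactic.Linarith.sub_neg_of_lt p)])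

theorem Gate_np {j : ℤ} {θ : ℝ} (h1 : (j : ℝ) - 1 / 2 ≤ θ) (h2 : θ ≤ j) : (Gate_E θ).im ≤ 0 := by
  have e : θ = θ - j + j := by ring
  have p := Real.pi_pos
  rw [e, Gate_E_add, Gate_E, exp_ofReal_mul_I_im]
  exact Real.sin_nonpos_of_nonpos_of_neg_pi_le (by linarith only [h2, p, mul_nonneg_of_nonpos_of_nonpos (Mathlib.Tactic.Linarith.sub_nonpos_of_le h2) (le_of_lt (Mathlib.Tactic.Linarith.sub_neg_of_lt p))]) (by linarith only [h1, p, mul_nonneg_of_nonpos_of_nonpos (Mathlib.Tactic.Linarith.sub_nonpos_of_le h1) (le_of_lt (Mathlib.Tactic.Linarith.sub_neg_of_lt p))])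

theorem Gate_sd (j : ℤ) : ∃ C : F6, ∀ θ : ℝ, (j : ℝ) < θ → θ < j + 1 →
    wd (cell θ) = C * sd (idx j) (cf (idx j) θ) := by
  by_cases hj : j % 4 < 2
  · refine ⟨wd j, fun θ h1 h2 => ?_⟩
    rw [Gate_cf' _ h1.le h2.le, Gate_G, if_pos rfl, if_pos hj, sd]
    rcases lt_or_ge θ (j + 1 / 2) with h | h
    · rw [if_neg (Gate_pos h1 h).not_ge, cell_eq (by linarith only [h1, h]) h, mul_one]
    · have e : cell θ = j + 1 := by
        rcases h.eq_or_lt with h | h
        · rw [← h, Gate_half, if_pos hj]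
        · exact cell_eq (by push_cast; linarith only [h]) (by push_cast; linarith only [h2, h])
      rw [if_pos (Gate_np (j := j + 1) (by push_cast; linarith only [h]) (by push_cast; linarith)), e,
        wd_succ, lett, if_pos hj]
  · refine ⟨wd (j + 1), fun θ h1 h2 => ?_⟩
    rw [Gate_cf' _ h1.le h2.le, Gate_G, if_pos rfl, if_neg hj, sd]
    rcases lt_or_ge (j + 1 / 2 : ℝ) θ with h | h
    · rw [if_neg (Gate_pos (j := -(j + 1)) (by push_cast; linarith only [h2])
        (by push_cast; linarith only [h])).not_ge,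
        cell_eq (j := j + 1) (by push_cast; linarith only [h]) (by push_cast; linarith only [h2, h]), mul_one]
    · have e : cell θ = j := by
        rcases h.eq_or_lt with h | h
        · rw [h, Gate_half, if_neg hj]
        · exact cell_eq (by linarith only [h1, h]) h
      rw [if_pos (Gate_np (j := -j) (by push_cast; linarith only [h]) (by push_cast; linarith only [h1])), e,
        wd_succ, lett, if_neg hj, inv_mul_cancel_right]
theorem exists_Phi : ∃ Φ : Hol X F6, ∀ a b : ℂ,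
    Φ.ln pX a b = (wd (cell a.re))⁻¹ * wd (cell b.re) := by
  obtain ⟨Φ, h1, h2⟩ := exists_rose cX continuous_cX (fun l x => norm_cf l _) (fun l l' x h => by
    by_cases e : idx ⌊(pX_quot.surjective x).choose.re⌋ = l
    · exact Or.inr (if_neg fun e' => h (e.symm.trans e'))
    · exact Or.inl (if_neg e))
  refine ⟨Φ, fun a b => (Φ.comap pX).eq_of_loc (fun w => wd (cell w.re)) (fun x => ?_)
    (Path.segment a b)⟩
  have hU : ∀ s t : ℝ, s < x.re → x.re < t → {w : ℂ | s < w.re ∧ w.re < t} ∈ 𝓝 x := fun s t hs ht =>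
    ((isOpen_Ioo (a := s) (b := t)).preimage continuous_re).mem_nhds ⟨hs, ht⟩
  by_cases hx : ∃ j : ℤ, x.re = j + 1 / 2
  · obtain ⟨j, hj⟩ := hx
    obtain ⟨C, hC⟩ := Gate_sd j
    refine ⟨_, hU j (j + 1) (by linarith only [hj]) (by linarith only [hj]), fun y z p hp => ?_⟩
    have hy := hp 0
    have hz := hp 1
    rw [p.source] at hy
    rw [p.target] at hz
    refine (h2 (idx j) _ _ (p.map pX.continuous) fun s => ?_).trans ?_
    · rw [Path.map_coe, Function.comp_apply, cX_pX]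
      exact Gate_ne (hp s).1 (hp s).2
    · rw [cX_pX, cX_pX, hC _ hy.1 hy.2, hC _ hz.1 hz.2]
      group
  · have a := Int.floor_le (x.re + 1 / 2)
    have b := Int.lt_floor_add_one (x.re + 1 / 2)
    generalize ⌊x.re + 1 / 2⌋ = j at a b
    have c : (j : ℝ) - 1 / 2 < x.re := lt_of_le_of_ne (by linarith only [a]) fun e =>
      hx ⟨j - 1, by push_cast; linarith only [a, e]⟩
    refine ⟨_, hU (j - 1 / 2) (j + 1 / 2) c (by linarith only [b]), fun y z p hp => ?_⟩
    have hy := hp 0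
    have hz := hp 1
    rw [p.source] at hy
    rw [p.target] at hz
    refine (h1 _ _ (p.map pX.continuous) fun s l e => ?_).trans ?_
    · rw [Path.map_coe, Function.comp_apply, cX_pX] at e
      obtain ⟨n, hn⟩ := Gate_neg e
      have h3 : (j : ℝ) < n + 1 := by linarith only [hn, hp, (hp s).1]
      have h4 : (n : ℝ) < j := by linarith only [hn, hp, (hp s).2]
      have h5 : j < n + 1 := by exact_mod_cast h3
      have h6 : n < j := by exact_mod_cast h4
      omega
    · rw [cell_eq hy.1 hy.2, cell_eq hz.1 hz.2, inv_mul_cancel]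

/-- The holonomy of the punctured surface. -/
noncomputable def Phi : Hol X F6 := exists_Phi.choose

theorem Phi_ln (a b : ℂ) : Phi.ln pX a b = (wd (cell a.re))⁻¹ * wd (cell b.re) :=
  exists_Phi.choose_spec a b

end SurfMod
end

-- merged part: Pool.Agent.Work.MP_497bf6_gt.Top.Univ
section
/-!
The universal property of `Phi`.

Plan. `hol_ext`: let `r θ = ⌊θ⌋ + max 0 (min (2 * fract θ - 1/2) 1)` (continuous by `cont_floor`,
equal to `j` for `|θ - j| ≤ 1/4`, `r (θ + 12) = r θ + 12`, `r (2 j + 3 - x) = 2 j + 3 - r x`, maps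
`[j, j + 1]` into itself), `d t w = (1 - t) w + t r (re w)`; by `lift_eq` it descends to
`D : I × X → X` with `D (t, pX w) = pX (d t w)`, continuous by
`IsQuotientMap.continuous_lift_prod_right pX_quot`. By `Hol.square`, for every holonomy
`H p * H (track of y) = H (track of x) * H (D₁ ∘ p)`; tracks lift to `ℂ` (`ln_path`). Use
`path_induction`: in `{x | ∀ l, 0 < re (cX l x)}` the path `D₁ ∘ p` is constant (`near_int`,
`pS_int`, `Hol.const`); in `{x | cX l x ≠ 1}` it lifts to `r (arc l + arg (-cX l x) / (2 π) + 1/2)`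
(`on_arc`; `arg` is continuous on the slit plane, `norm_cf`); every point lies in one of these
open sets.
`univ`: `lam (of l) = Ψ.ln pX (arc l) (arc l + 1)`; then `lam (lett j) = Ψ.ln pX j (j + 1)` for all
`j` (`idx_cases`, `ln_congr'`, `pS_add`, `pS_glue`), `lam (wd j) = Ψ.ln pX 0 j`; the function
`w ↦ Ψ.ln pX (cell w.re) w` descends to `k` by `lift_eq` (`cell_add`, `cell_glue`, `ln_congr'`);
apply `hol_ext` to `Ψ` and the holonomy `p ↦ (k x)⁻¹ * lam (Phi.H p) * k y`.
-/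

set_option autoImplicit false

open Complex Set Metric Topology Neuwirth

namespace SurfMod

/-- The ramp on the unit interval. -/
noncomputable def Univ_g (u : ℝ) : ℝ := max 0 (min (2 * u - 1 / 2) 1)

/-- The staircase. -/
noncomputable def Univ_r (θ : ℝ) : ℝ := ⌊θ⌋ + Univ_g (θ - ⌊θ⌋)

theorem Univ_g_zero {u : ℝ} (h : u ≤ 1 / 4) : Univ_g u = 0 :=
  max_eq_left ((min_le_left _ _).trans (by linarith only [h]))

theorem Univ_g_one {u : ℝ} (h : 3 / 4 ≤ u) : Univ_g u = 1 := by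
  rw [Univ_g, min_eq_right (by linarith only [h]), max_eq_right zero_le_one]

theorem Univ_g_mem (u : ℝ) : 0 ≤ Univ_g u ∧ Univ_g u ≤ 1 :=
  ⟨le_max_left _ _, max_le zero_le_one (min_le_right _ _)⟩

theorem Univ_g_symm (u : ℝ) : Univ_g (1 - u) = 1 - Univ_g u := by
  rcases le_total u (1 / 4) with h | h
  · rw [Univ_g_zero h, Univ_g_one (by linarith only [h]), sub_zero]
  rcases le_total (3 / 4) u with h' | h'
  · rw [Univ_g_one h', Univ_g_zero (by linarith only [h']), sub_self]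
  · rw [Univ_g, Univ_g, min_eq_left (by linarith only [h]), min_eq_left (by linarith only [h']),
      max_eq_right (by linarith only [h']), max_eq_right (by linarith only [h])]
    ring

theorem Univ_r_eq {θ : ℝ} {j : ℤ} (h1 : (j : ℝ) ≤ θ) (h2 : θ ≤ j + 1) :
    Univ_r θ = j + Univ_g (θ - j) := by
  rcases h2.lt_or_eq with h | h
  · rw [Univ_r, Int.floor_eq_iff.2 ⟨h1, h⟩]
  · have e : ⌊θ⌋ = j + 1 := by
      rw [h]
      exact_mod_cast Int.floor_intCast (R := ℝ) (j + 1)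
    rw [Univ_r, e, Univ_g_zero (by push_cast; linarith only [h2]), Univ_g_one (by linarith only [h])]
    push_cast
    ring

theorem Univ_r_cont : Continuous Univ_r :=
  cont_floor (fun θ : ℝ => θ) continuous_id (fun j θ => (j : ℝ) + Univ_g (θ - j))
    (fun j => by unfold Univ_g; fun_prop) fun j θ h => by
      have h : θ = j + 1 := h
      rw [Univ_g_one (by linarith), Univ_g_zero (by push_cast; linarith)]
      push_cast
      ring

theorem Univ_r_add (θ : ℝ) : Univ_r (θ + 12) = Univ_r θ + 12 := by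
  rw [Univ_r_eq (j := ⌊θ⌋ + 12) (by push_cast; linarith [Int.floor_le θ])
    (by push_cast; linarith [Int.lt_floor_add_one θ]), Univ_r]
  push_cast
  rw [show θ + 12 - (⌊θ⌋ + 12) = θ - ⌊θ⌋ by ring]
  ring

theorem Univ_r_near {θ : ℝ} {j : ℤ} (h : |θ - j| < 1 / 4) : Univ_r θ = j := by
  obtain ⟨h1, h2⟩ := abs_lt.1 h
  rcases le_total (j : ℝ) θ with h3 | h3
  · rw [Univ_r_eq h3 (by linarith only [h2]), Univ_g_zero h2.le, add_zero]
  · rw [Univ_r_eq (j := j - 1) (by push_cast; linarith only [h1]) (by push_cast; linarith only [h3]),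
      Univ_g_one (by push_cast; linarith only [h1])]
    push_cast
    ring

theorem Univ_r_glue {x : ℝ} {j : ℤ} (h1 : (j : ℝ) ≤ x) (h2 : x ≤ j + 1) :
    (j : ℝ) ≤ Univ_r x ∧ Univ_r x ≤ j + 1 ∧ Univ_r (2 * j + 3 - x) = 2 * j + 3 - Univ_r x := by
  have := Univ_g_mem (x - j)
  rw [Univ_r_eq h1 h2, Univ_r_eq (j := j + 2) (by push_cast; linarith) (by push_cast; linarith)]
  refine ⟨by linarith, by linarith, ?_⟩
  push_cast
  rw [show 2 * (j : ℝ) + 3 - x - (j + 2) = 1 - (x - j) by ring, Univ_g_symm]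
  ring

/-- The deformation of the plane. -/
noncomputable def Univ_d (t : unitInterval) (w : ℂ) : ℂ :=
  ((1 - t : ℝ) : ℂ) * w + ((t * Univ_r w.re : ℝ) : ℂ)

theorem Univ_d_cont : Continuous fun a : unitInterval × ℂ => Univ_d a.1 a.2 := by
  have := Univ_r_cont
  unfold Univ_d
  fun_prop

theorem Univ_d_lift (t : unitInterval) {w w' : ℂ} (h : pS w = pS w') :
    pS (Univ_d t w) = pS (Univ_d t w') := by
  refine lift_eq (fun w => pS (Univ_d t w)) (fun w => ?_) (fun w => ?_) (fun j x hj h1 h2 => ?_) h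
  · rw [← pS_conj (Univ_d t w)]
    simp only [Univ_d, map_add, map_mul, conj_ofReal, conj_re]
  · rw [← pS_add (Univ_d t w) 1]
    congr 1
    simp only [Univ_d, add_re, re_ofNat, Univ_r_add]
    push_cast
    ring
  · obtain ⟨a1, a2, a3⟩ := Univ_r_glue h1 h2
    have t0 := t.2.1
    have t1 := t.2.2
    have := pS_glue hj (x := (1 - t) * x + t * Univ_r x) (by linarith only [h1, t1, a1, t0, mul_nonneg_of_nonpos_of_nonpos (Mathlib.Tactic.Linarith.sub_nonpos_of_le h1) (Mathlib.Tactic.Linarith.sub_nonpos_of_le t1), mul_nonneg_of_nonpos_of_nonpos (Mathlib.Tactic.Linarith.sub_nonpos_of_le a1) (Mathlib.Tactic.Linarith.sub_nonpos_of_le t0)]) (by linarith only [h2, t1, a2, t0, mul_nonneg_of_nonpos_of_nonpos (Mathlib.Tactic.Linarith.sub_nonpos_of_le h2) (Mathlib.Tactic.Linarith.sub_nonpos_of_le t1), mul_nonneg_of_nonpos_of_nonpos (Mathlib.Tactic.Linarith.sub_nonpos_of_le a2) (Mathlib.Tactic.Linarith.sub_nonpos_of_le t0)])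
    simp only [Univ_d, ofReal_re, a3]
    convert this using 2 <;> push_cast <;> ring

/-- The deformation of the punctured surface. -/
noncomputable def Univ_D (a : unitInterval × X) : X :=
  pX (Univ_d a.1 (pX_quot.surjective a.2).choose)

theorem Univ_D_pX (t : unitInterval) (w : ℂ) : Univ_D (t, pX w) = pX (Univ_d t w) :=
  Subtype.ext (Univ_d_lift t (congrArg Subtype.val (pX_quot.surjective (pX w)).choose_spec))

theorem Univ_D_cont : Continuous Univ_D :=
  pX_quot.continuous_lift_prod_right (by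
    simp only [Univ_D_pX]
    exact pX.continuous.comp Univ_d_cont)

theorem Univ_D_zero (x : X) : Univ_D (0, x) = x := by
  obtain ⟨w, rfl⟩ := pX_quot.surjective x
  rw [Univ_D_pX]
  simp [Univ_d]

theorem Univ_D_one (w : ℂ) : Univ_D (1, pX w) = pX (Univ_r w.re : ℝ) := by
  rw [Univ_D_pX]
  simp [Univ_d]

theorem Univ_D_near {x : X} (h : ∀ l, 0 < (cX l x).re) : Univ_D (1, x) = pX 0 := by
  obtain ⟨w, rfl⟩ := pX_quot.surjective x
  simp only [cX_pX] at h
  obtain ⟨j, hj⟩ := near_int h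
  rw [Univ_D_one, Univ_r_near hj]
  rw [ofReal_intCast]
  exact Subtype.ext (pS_int j)

theorem Univ_D_arc {x : X} {l : Fin 6} (h : cX l x ≠ 1) : Univ_D (1, x) =
    pX (Univ_r (arc l + (arg (-cX l x) / (2 * Real.pi) + 1 / 2)) : ℝ) := by
  obtain ⟨w, rfl⟩ := pX_quot.surjective x
  rw [cX_pX] at h ⊢
  have e : pX (w.re : ℝ) = pX ((arc l + (arg (-cf l w.re) / (2 * Real.pi) + 1 / 2) : ℝ) : ℂ) :=
    Subtype.ext (on_arc h)
  have e1 := Univ_D_one (w.re : ℝ)
  rw [e, Univ_D_one, ofReal_re, ofReal_re] at e1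
  rw [Univ_D_one, e1]

theorem Univ_slit {c : ℂ} (h : ‖c‖ = 1) (h1 : c ≠ 1) : -c ∈ slitPlane := by
  by_cases hi : c.im = 0
  · left
    have e : c = (c.re : ℝ) := Complex.ext rfl (by simp [hi])
    have h2 : |c.re| = 1 := by rw [e, norm_real, Real.norm_eq_abs] at h; exact h
    rcases abs_eq (zero_le_one' ℝ) |>.1 h2 with h3 | h3
    · exact absurd (by rw [e, h3]; simp) h1
    · simp [h3]
  · right
    simpa using hi

theorem hol_ext {G : Type*} [Group G] (Ψ Ψ' : Hol X G)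
    (h : ∀ a b : ℂ, Ψ.ln pX a b = Ψ'.ln pX a b) {x y : X} (p : Path x y) : Ψ.H p = Ψ'.H p := by
  have hl : ∀ {x y : X} (p : Path x y) (q : unitInterval → ℂ), Continuous q →
      (∀ s, p s = pX (q s)) → Ψ.H p = Ψ'.H p := fun p q hq e => by
    rw [Ψ.ln_path pX p q hq e, Ψ'.ln_path pX p q hq e, h]
  have hD := Univ_D_cont
  let tr : ∀ x : X, Path x (Univ_D (1, x)) := fun x =>
    ⟨⟨fun t => Univ_D (t, x), by fun_prop⟩, Univ_D_zero x, rfl⟩
  have htr : ∀ x, Ψ.H (tr x) = Ψ'.H (tr x) := fun x => by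
    obtain ⟨w, rfl⟩ := pX_quot.surjective x
    exact hl _ (fun t => Univ_d t w) (Univ_d_cont.comp (continuous_id.prodMk continuous_const))
      fun t => Univ_D_pX t w
  have key : ∀ {x y : X} (p : Path x y) (q : unitInterval → ℂ), Continuous q →
      (∀ s, Univ_D (1, p s) = pX (q s)) → Ψ.H p = Ψ'.H p := fun {x y} p q hq e => by
    let p1 : Path (Univ_D (1, x)) (Univ_D (1, y)) :=
      ⟨⟨fun s => Univ_D (1, p s), by fun_prop⟩, by simp, by simp⟩
    have sq : ∀ Θ : Hol X G, Θ.H p * Θ.H (tr y) = Θ.H (tr x) * Θ.H p1 := fun Θ =>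
      Θ.square (fun a => Univ_D (a.1, p a.2)) (by fun_prop) p p1 (tr x) (tr y)
        (fun s => (Univ_D_zero _).symm) (fun s => rfl) (fun t => by simp [tr])
        (fun t => by simp [tr])
    have e1 := sq Ψ
    rw [htr, htr, hl p1 q hq e, ← sq Ψ'] at e1
    exact mul_right_cancel e1
  refine path_induction (fun {a b} q => Ψ.H q = Ψ'.H q) (fun q r hq hr => ?_)
    (fun q r e hq => ?_) (fun z => ?_) p
  · rw [Ψ.trans, Ψ'.trans, hq, hr]
  · rw [← Ψ.homot _ _ e, ← Ψ'.homot _ _ e, hq]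
  by_cases hz : ∀ l, 0 < (cX l z).re
  · refine ⟨{x | ∀ l, 0 < (cX l x).re}, IsOpen.mem_nhds ?_ hz, fun a b q hq =>
      key q (fun _ => 0) continuous_const fun s => Univ_D_near (hq s)⟩
    rw [ofPred_forall]
    exact isOpen_iInter_of_finite fun l =>
      isOpen_lt continuous_const (continuous_re.comp (continuous_cX l))
  · obtain ⟨l, hl⟩ := not_forall.1 hz
    refine ⟨{x | cX l x ≠ 1}, IsOpen.mem_nhds (isOpen_ne_fun (continuous_cX l) continuous_const)
      (fun e => hl (by rw [e]; simp)), fun a b q hq => key q _ ?_ fun s => Univ_D_arc (hq s)⟩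
    have c1 : Continuous fun s => -cX l (q s) := ((continuous_cX l).comp q.continuous).neg
    have c2 : Continuous fun s => arg (-cX l (q s)) := continuous_iff_continuousAt.2 fun s =>
      (continuousAt_arg (Univ_slit (norm_cf _ _) (hq s))).comp_of_eq c1.continuousAt rfl
    have := Univ_r_cont
    fun_prop

theorem Univ_lett {G : Type*} [Group G] (Ψ : Hol X G) (j : ℤ) :
    FreeGroup.lift (fun l => Ψ.ln pX (arc l) (arc l + 1)) (lett j) = Ψ.ln pX j (j + 1) := by
  obtain ⟨n, ⟨h1, h2⟩ | ⟨h1, h2⟩⟩ := idx_cases j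
  · rw [lett, if_pos h1, FreeGroup.lift_apply_of]
    generalize arc (idx j) = a at h2
    refine Ψ.ln_congr' pX pX _ _ _ _ fun s _ => Subtype.ext ?_
    refine (pS_add _ n).symm.trans (congrArg pS ?_)
    rw [h2]
    push_cast
    simp only [real_smul]
    ring
  · rw [lett, if_neg h1, map_inv, FreeGroup.lift_apply_of, ← Ψ.ln_symm]
    have h3 := arc_mod (idx j)
    generalize arc (idx j) = a at h2 h3
    refine Ψ.ln_congr' pX pX _ _ _ _ fun s hs => Subtype.ext ?_
    have := (pS_glue h3 (x := a + 1 - s) (by linarith only [hs, hs.2]) (by linarith [hs.1])).trans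
      (pS_add _ n).symm
    refine (congrArg pS ?_).trans (this.trans (congrArg pS ?_))
    · push_cast
      simp only [real_smul]
      ring
    · rw [h2]
      push_cast
      simp only [real_smul]
      ring

theorem Univ_wd {G : Type*} [Group G] (Ψ : Hol X G) (j : ℤ) :
    FreeGroup.lift (fun l => Ψ.ln pX (arc l) (arc l + 1)) (wd j) = Ψ.ln pX 0 j := by
  induction j using Int.induction_on with
  | zero => rw [wd_zero, map_one, Int.cast_zero, Ψ.ln_self]
  | succ j ih =>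
    rw [wd_succ, map_mul, ih, Univ_lett, Ψ.ln_trans]
    push_cast
    rfl
  | pred j ih =>
    have e := wd_succ (-(j : ℤ) - 1)
    rw [sub_add_cancel] at e
    rw [e, map_mul, Univ_lett, ← Ψ.ln_trans pX 0 ((-(j : ℤ) - 1 : ℤ) : ℂ) ((-(j : ℤ) : ℤ) : ℂ)] at ih
    rw [show ((-(j : ℤ) - 1 : ℤ) : ℂ) + 1 = ((-(j : ℤ) : ℤ) : ℂ) by push_cast; ring] at ih
    exact mul_right_cancel ih

theorem Univ_k {G : Type*} [Group G] (Ψ : Hol X G) {w w' : ℂ} (h : pS w = pS w') :
    Ψ.ln pX (cell w.re) w = Ψ.ln pX (cell w'.re) w' := by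
  refine lift_eq (fun w => Ψ.ln pX (cell w.re) w) (fun w => ?_) (fun w => ?_)
    (fun j x hj h1 h2 => ?_) h
  · refine Ψ.ln_congr' pX pX _ _ _ _ fun s _ => Subtype.ext ?_
    refine (congrArg pS ?_).trans (pS_conj _)
    simp only [conj_re, real_smul, map_add, map_mul, map_sub, conj_ofReal, map_intCast]
  · refine Ψ.ln_congr' pX pX _ _ _ _ fun s _ => Subtype.ext ?_
    refine (congrArg pS ?_).trans (pS_add _ 1)
    simp only [add_re, re_ofNat, cell_add, real_smul]
    push_cast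
    ring
  · obtain ⟨a1, a2⟩ := cell_glue hj h1 h2
    refine Ψ.ln_congr' pX pX _ _ _ _ fun s hs => Subtype.ext ?_
    have b : (j : ℝ) ≤ cell x ∧ (cell x : ℝ) ≤ j + 1 := by
      rcases a1 with e | e <;> rw [e] <;> push_cast <;> constructor <;> linarith only []
    have s0 := hs.1
    have s1 := hs.2
    have := pS_glue hj (x := cell x + s * (x - cell x)) (by linarith only [h1, s0, b, s1, mul_nonneg_of_nonpos_of_nonpos (Mathlib.Tactic.Linarith.sub_nonpos_of_le h1) (Mathlib.Tactic.Linarith.sub_nonpos_of_le s0), mul_nonneg_of_nonpos_of_nonpos (Mathlib.Tactic.Linarith.sub_nonpos_of_le b.left) (Mathlib.Tactic.Linarith.sub_nonpos_of_le s1)]) (by linarith only [h2, s0, b, s1, mul_nonneg_of_nonpos_of_nonpos (Mathlib.Tactic.Linarith.sub_nonpos_of_le h2) (Mathlib.Tactic.Linarith.sub_nonpos_of_le s0), mul_nonneg_of_nonpos_of_nonpos (Mathlib.Tactic.Linarith.sub_nonpos_of_le b.right) (Mathlib.Tactic.Linarith.sub_nonpos_of_le s1)])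
    refine (congrArg pS ?_).trans (this.trans (congrArg pS ?_))
    · simp only [ofReal_re, real_smul]
      push_cast
      ring
    · simp only [ofReal_re, real_smul, a2]
      push_cast
      ring

theorem univ {G : Type*} [Group G] (Ψ : Hol X G) : ∃ (lam : F6 →* G) (k : X → G),
    ∀ (x y : X) (p : Path x y), Ψ.H p = (k x)⁻¹ * lam (Phi.H p) * k y := by
  let lam : F6 →* G := FreeGroup.lift fun l => Ψ.ln pX (arc l) (arc l + 1)
  let k : X → G := fun x => Ψ.ln pX (cell (pX_quot.surjective x).choose.re)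
    (pX_quot.surjective x).choose
  have hk : ∀ w, k (pX w) = Ψ.ln pX (cell w.re) w := fun w =>
    Univ_k Ψ (congrArg Subtype.val (pX_quot.surjective (pX w)).choose_spec)
  let Ψ' : Hol X G := ⟨fun {x y} p => (k x)⁻¹ * lam (Phi.H p) * k y, fun p q => by
    rw [Phi.trans, map_mul]; group, fun p q e => by rw [Phi.homot _ _ e]⟩
  refine ⟨lam, k, fun x y p => hol_ext Ψ Ψ' (fun a b => ?_) p⟩
  change _ = (k (pX a))⁻¹ * lam (Phi.ln pX a b) * k (pX b)
  rw [hk, hk, Phi_ln, map_mul, map_inv, Univ_wd, Univ_wd, ← Ψ.ln_symm, ← Ψ.ln_symm, Ψ.ln_trans,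
    Ψ.ln_trans, Ψ.ln_trans]

end SurfMod
end

-- merged part: Pool.Agent.Work.MP_497bf6_gt.Top.Ind
section
/-!
The homomorphism from the mapping class group to a quotient of the stabiliser of the boundary class.

Plan. `Ind.exists`: `univ` for `Phi.comap h`. `Phi_surj`: induction over the free group with the
loops `edge l`. `Ind.uniq`: evaluate on loops at `vtx`. `Ind.homot`: `Hol.square`, the new gauge is
`k x * Phi.H (track of x)`. `Ind.of_edges`: start from `Ind.exists`, conjugate by `k vtx`.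
`Ind.conj_bdry`: the loop `s ↦ loop 3 (Circle.exp (2 π s))` has holonomy `bdry` (`loop_eq`,
`ln_path`, `Phi_ln`, `wd_twelve`); `Hol.square` for the free homotopy.
`exists_hom`: for `h` choose `lam` with `Ind (res h) lam`; it is bijective since its composites with
the map chosen for `h⁻¹` are inner (`Ind.comp`, `Ind.id`, `Ind.uniq`); `MulEquiv.ofBijective`;
`Ψ φ` depends only on the class of `φ` modulo inner automorphisms; `Con.lift`.
-/

set_option autoImplicit false

open Complex Set Metric Topology Neuwirth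

namespace SurfMod

/-- The vertex of the polygon. -/
noncomputable def vtx : X := pX 0

/-- The side of the polygon that carries the letter `l`. -/
noncomputable def edge (l : Fin 6) : Path vtx vtx where
  toFun s := pX ((arc l + s : ℝ) : ℂ)
  continuous_toFun := pX.continuous.comp (by fun_prop)
  source' := Subtype.ext (show pS _ = pS 0 by simpa using pS_int (arc l))
  target' := Subtype.ext (show pS _ = pS 0 by simpa using pS_int (arc l + 1))

theorem Phi_edge (l : Fin 6) : Phi.H (edge l) = FreeGroup.of l := by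
  rw [Phi.ln_path pX (edge l) (fun s => ((arc l + s : ℝ) : ℂ)) (by fun_prop) (fun _ => rfl), Phi_ln]
  have h1 : cell ((arc l : ℝ) + 1) = arc l + 1 := by
    have := cell_int (arc l + 1)
    rwa [Int.cast_add, Int.cast_one] at this
  simp only [ofReal_re, Set.Icc.coe_zero, Set.Icc.coe_one, add_zero, cell_int, h1, wd_succ,
    lett_arc, inv_mul_cancel_left]

theorem Phi_surj (a : F6) : ∃ p : Path vtx vtx, Phi.H p = a := by
  induction a using FreeGroup.induction_on with
  | C1 => exact ⟨Path.refl _, Phi.refl _⟩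
  | of l => exact ⟨edge l, Phi_edge l⟩
  | inv_of l ih => exact ⟨(edge l).symm, by rw [Phi.symm, Phi_edge]⟩
  | mul a b ha hb =>
    obtain ⟨p, hp⟩ := ha
    obtain ⟨q, hq⟩ := hb
    exact ⟨p.trans q, by rw [Phi.trans, hp, hq]⟩

/-- The self map `h` of the punctured surface induces `lam` on the free group. -/
def Ind (h : C(X, X)) (lam : F6 →* F6) : Prop :=
  ∃ k : X → F6, ∀ (x y : X) (p : Path x y),
    Phi.H (p.map h.continuous) = (k x)⁻¹ * lam (Phi.H p) * k y

theorem Ind.exists (h : C(X, X)) : ∃ lam, Ind h lam := by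
  obtain ⟨lam, k, hk⟩ := univ (Phi.comap h)
  exact ⟨lam, k, hk⟩

theorem Ind.uniq {h : C(X, X)} {lam lam' : F6 →* F6} (h1 : Ind h lam) (h2 : Ind h lam') :
    ∃ c : F6, ∀ a, lam' a = c * lam a * c⁻¹ := by
  obtain ⟨k, hk⟩ := h1
  obtain ⟨k', hk'⟩ := h2
  refine ⟨k' vtx * (k vtx)⁻¹, fun a => ?_⟩
  obtain ⟨p, rfl⟩ := Phi_surj a
  have := (hk _ _ p).symm.trans (hk' _ _ p)
  calc lam' (Phi.H p) = k' vtx * ((k' vtx)⁻¹ * lam' (Phi.H p) * k' vtx) * (k' vtx)⁻¹ := by group
    _ = _ := by rw [← this]; group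

theorem Ind.id : Ind (ContinuousMap.id X) (MonoidHom.id F6) := by
  refine ⟨fun _ => 1, fun x y p => ?_⟩
  simp only [inv_one, one_mul, mul_one, MonoidHom.id_apply]
  rfl

theorem Ind.comp {h h' : C(X, X)} {lam lam' : F6 →* F6} (h1 : Ind h lam) (h2 : Ind h' lam') :
    Ind (h.comp h') (lam.comp lam') := by
  obtain ⟨k, hk⟩ := h1
  obtain ⟨k', hk'⟩ := h2
  refine ⟨fun x => lam (k' x) * k (h' x), fun x y p => ?_⟩
  have := hk _ _ (p.map h'.continuous)
  rw [hk', map_mul, map_mul, map_inv] at this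
  refine Eq.trans ?_ (this.trans ?_)
  · rfl
  · simp only [MonoidHom.comp_apply]; group

theorem Ind.homot {h h' : C(X, X)} {lam : F6 →* F6} (h1 : Ind h lam) (h2 : h.Homotopic h') :
    Ind h' lam := by
  obtain ⟨k, hk⟩ := h1
  obtain ⟨H⟩ := h2
  refine ⟨fun x => k x * Phi.H (H.evalAt x), fun x y p => ?_⟩
  have := Phi.square (fun z => H (z.1, p z.2)) (by fun_prop) (p.map h.continuous)
    (p.map h'.continuous) (H.evalAt x) (H.evalAt y) (fun s => by simp) (fun s => by simp)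
    (fun t => by simp) (fun t => by simp)
  rw [hk] at this
  calc Phi.H (p.map h'.continuous)
      = (Phi.H (H.evalAt x))⁻¹ * (Phi.H (H.evalAt x) * Phi.H (p.map h'.continuous)) := by group
    _ = _ := by rw [← this]; group

theorem Ind.of_edges {h : C(X, X)} {lam : F6 →* F6}
    (he : ∀ l, Phi.H ((edge l).map h.continuous) = lam (FreeGroup.of l)) : Ind h lam := by
  obtain ⟨lam0, k, hk⟩ := Ind.exists h
  have h1 : lam = (MulAut.conj (k vtx)⁻¹).toMonoidHom.comp lam0 := by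
    refine FreeGroup.ext_hom _ _ fun l => ?_
    rw [← he, hk, Phi_edge]
    simp
  refine ⟨fun x => (k vtx)⁻¹ * k x, fun x y p => ?_⟩
  rw [hk, h1]
  simp only [MulEquiv.toMonoidHom_eq_coe, MonoidHom.comp_apply, MonoidHom.coe_coe,
    MulAut.conj_apply]
  group

/-- The restriction of a homeomorphism to the punctured surface. -/
noncomputable def res (h : HomeoPos 3) : C(X, X) :=
  ⟨fun x => ⟨h.1 x.1, fun e => x.2 (h.1.injective (e.trans h.2.1.symm))⟩, by fun_prop⟩

/-- The loop round the puncture. -/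
noncomputable def Ind_loop : Path (pX (Real.log 2 * I)) (pX (Real.log 2 * I)) where
  toFun s := pX ((12 * s : ℝ) + Real.log 2 * I)
  continuous_toFun := pX.continuous.comp (by fun_prop)
  source' := by simp
  target' := Subtype.ext (show pS _ = pS _ by
    rw [← pS_add (Real.log 2 * I) 1]; congr 1; simp [add_comm])

theorem Ind_loop_hol : Phi.H Ind_loop = bdry := by
  rw [Phi.ln_path pX Ind_loop (fun s => ((12 * s : ℝ) : ℂ) + Real.log 2 * I) (by fun_prop)
    (fun _ => rfl), Phi_ln]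
  have h0 : cell 0 = 0 := by simpa using cell_int 0
  have h1 : cell 12 = 12 := by simpa using cell_int 12
  simp only [add_re, ofReal_re, re_ofReal_mul, I_re, mul_zero, add_zero, Set.Icc.coe_zero,
    Set.Icc.coe_one, mul_one, h0, h1, wd_zero, wd_twelve, inv_one, one_mul]

theorem Ind.conj_bdry {h : HomeoPos 3} {lam : F6 →* F6} (h1 : Ind (res h) lam) :
    IsConj (lam bdry) bdry := by
  obtain ⟨k, hk⟩ := h1
  obtain ⟨H⟩ := h.2.2
  let K : unitInterval × unitInterval → X := fun z =>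
    ⟨H (z.1, Circle.exp (2 * Real.pi * z.2)), H.prop z.1 _⟩
  have hK : Continuous K := by
    refine Continuous.subtype_mk (H.continuous.comp ?_) _
    fun_prop
  have h0 : ∀ s, Ind_loop s = K (0, s) := fun s =>
    Subtype.ext ((loop_eq s).symm.trans (H.apply_zero _).symm)
  have h1 : ∀ s, (Ind_loop.map (res h).continuous) s = K (1, s) := fun s =>
    Subtype.ext ((congrArg h.1 (loop_eq s).symm).trans (H.apply_one _).symm)
  let ta : Path (pX (Real.log 2 * I)) (res h (pX (Real.log 2 * I))) :=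
    { toFun := fun t => K (t, 0)
      continuous_toFun := hK.comp (by fun_prop)
      source' := (h0 0).symm.trans Ind_loop.source
      target' := (h1 0).symm.trans (Ind_loop.map (res h).continuous).source }
  have := Phi.square K hK Ind_loop (Ind_loop.map (res h).continuous) ta ta h0 h1
    (fun _ => rfl) (fun t => Subtype.ext (by simp [ta, K]))
  rw [hk, Ind_loop_hol] at this
  refine isConj_iff.2 ⟨Phi.H ta * (k (pX (Real.log 2 * I)))⁻¹, ?_⟩
  calc _ = Phi.H ta * ((k (pX (Real.log 2 * I)))⁻¹ * lam bdry * k (pX (Real.log 2 * I))) *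
        (Phi.H ta)⁻¹ := by group
    _ = _ := by rw [← this]; group

/-- The automorphisms that fix the conjugacy class of the boundary word. -/
def Stab : Subgroup (MulAut F6) where
  carrier := {φ | IsConj (φ bdry) bdry}
  one_mem' := IsConj.refl _
  mul_mem' := fun {a _} ha hb => (a.toMonoidHom.map_isConj hb).trans ha
  inv_mem' := fun {a} ha => by
    have := a.symm.toMonoidHom.map_isConj ha
    simp only [MulEquiv.toMonoidHom_eq_coe, MonoidHom.coe_coe, MulEquiv.symm_apply_apply] at this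
    exact this.symm

theorem Ind_res_mul (h h' : HomeoPos 3) : res (h * h') = (res h).comp (res h') := rfl

theorem Ind_res_one : res 1 = ContinuousMap.id X := rfl

theorem Ind_inner {h h' : HomeoPos 3} (e : h * h' = 1) {lam lam' : F6 →* F6}
    (h1 : Ind (res h) lam) (h2 : Ind (res h') lam') :
    ∃ c : F6, ∀ a, lam (lam' a) = c * a * c⁻¹ := by
  have h3 := h1.comp h2
  rw [← Ind_res_mul, e, Ind_res_one] at h3
  exact Ind.id.uniq h3

theorem Ind_stab (h : HomeoPos 3) : ∃ φ : Stab, Ind (res h) φ.1.toMonoidHom := by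
  obtain ⟨lam, h1⟩ := Ind.exists (res h)
  obtain ⟨lam', h2⟩ := Ind.exists (res h⁻¹)
  obtain ⟨c, hc⟩ := Ind_inner (mul_inv_cancel h) h1 h2
  obtain ⟨c', hc'⟩ := Ind_inner (inv_mul_cancel h) h2 h1
  have hb : Function.Bijective lam := by
    refine ⟨fun a b e => ?_, fun a => ⟨lam' (c⁻¹ * a * c), by rw [hc]; group⟩⟩
    have := congrArg lam' e
    rw [hc', hc'] at this
    simpa using this
  exact ⟨⟨MulEquiv.ofBijective lam hb, h1.conj_bdry⟩, h1⟩

theorem Ind_isotopy {f h : HomeoPos 3} (e : isotopy 3 f h) : (res f).Homotopic (res h) := by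
  obtain ⟨H⟩ := e
  exact ⟨⟨⟨fun z => ⟨H (z.1, z.2.1), fun e =>
      z.2.2 ((H.prop z.1).1.injective (e.trans (H.prop z.1).2.symm))⟩,
      Continuous.subtype_mk (H.continuous.comp (by fun_prop)) _⟩,
    fun x => Subtype.ext (H.apply_zero _), fun x => Subtype.ext (H.apply_one _)⟩⟩

theorem exists_hom {G : Type*} [Group G] (Ψ : Stab →* G)
    (hinn : ∀ (φ : Stab) (c : F6), φ.1 = MulAut.conj c → Ψ φ = 1) :
    ∃ Θ : Mod 3 →* G, ∀ (h : HomeoPos 3) (φ : Stab), Ind (res h) φ.1.toMonoidHom →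
      Θ ((isotopy 3).mk' h) = Ψ φ := by
  have hw : ∀ (f : C(X, X)) (φ φ' : Stab), Ind f φ.1.toMonoidHom → Ind f φ'.1.toMonoidHom →
      Ψ φ' = Ψ φ := by
    intro f φ φ' h1 h2
    obtain ⟨c, hc⟩ := h1.uniq h2
    have := hinn (φ' * φ⁻¹) c (MulEquiv.ext fun a => by
      have := hc (φ.1.symm a)
      simpa using this)
    rwa [map_mul, map_inv, mul_inv_eq_one] at this
  choose ch hch using Ind_stab
  let θ : HomeoPos 3 →* G := MonoidHom.mk' (fun h => Ψ (ch h)) fun h h' => by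
    rw [← map_mul]
    exact hw _ _ _ ((hch h).comp (hch h')) (hch (h * h'))
  refine ⟨(isotopy 3).lift θ fun f h e => ?_, fun h φ hφ => hw _ _ _ hφ (hch h)⟩
  exact hw _ _ _ (hch h) ((hch f).homot (Ind_isotopy e))

end SurfMod
end

-- merged part: Pool.Agent.Work.MP_497bf6_gt.Top.Comp
section
/-!
The action of the three twists on the free group.

Plan. Let `T = res ⟨twH h, _⟩`, `f = T ∘ pX ∘ ofReal : C(ℝ, X)`, `annX : C(ℝ × ℝ, X)`. For an edge,
`Phi.H ((edge l).map T) = Phi.ln f j (j + 1)` with `j = arc l` (`ln_path`). On an interval of reals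
in `[0, 12]` that misses the open annulus `T` is the identity (`Annu.tw_out`, `ann_out`), so
`Phi.ln f a b = Phi.ln pX a b` (`ln_congr'`), given by `Phi_ln` and `cell_eq`. Across the annulus
`f x = annX (φ₀ + m σ, σ)` with `σ` affine in `x` (`Annu.tw_apply`). Moves in `annX`: along `σ` at
an integer `φ` the path is real and stays in one cell (value `1`); along `φ` from `n` to `n + 1` it
lifts to a half circle (`ann_pos`, `ann_neg`, `ln_congr`).
`t1` (`c = 3/2`), edge `0`: `0 → 5/8` gives `a₁`; `5/8 → 7/8` is `(2, 1) → (1, 0)`, the half circle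
goes from `5/8` (cell 1) to `19/8` (cell 2) and gives `b₁`. `t2` (`c = 5/2`), edge `1`: the same
shifted by one: `b₁`, then cell 2 to cell 3. `t3` (`c = 7/2`), edge `0`: `1/8 → 3/8` is
`(1, 0) → (3, 1)`; `(1,1) → (2,1)` goes from `3/8` (cell 0) to `53/8` (cell 7), `(2,1) → (3,1)` from
`35/8` (cell 4) to `21/8` (cell 3); then `a₁`. Edge with `arc = 4`: `33/8 → 35/8` is
`(0, 0) → (2, 1)`: `b₁`, then `wd 7`, then `a₂`. Expand `wd` by `wd_succ`, `lett`, `decide`.
-/

set_option autoImplicit false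

open Complex Set Metric Topology Neuwirth FreeGroup

namespace SurfMod

/-- The twist about `b₁`. -/
def t1 : Fin 6 → F6 := ![of 0 * of 1, of 1, of 2, of 3, of 4, of 5]

/-- The twist about `a₁`. -/
def t2 : Fin 6 → F6 := ![of 0, of 1 * (of 0)⁻¹, of 2, of 3, of 4, of 5]

/-- The word read from the vertex `0` to the vertex `7`. -/
def w7 : F6 := of 0 * of 1 * (of 0)⁻¹ * (of 1)⁻¹ * of 2 * of 3 * (of 2)⁻¹

/-- The twist about a curve homologous to `b₁ + b₂`. -/
def t3 : Fin 6 → F6 := ![w7 * of 1 * of 0, of 1, of 1 * w7 * of 2, of 3, of 4, of 5]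

section

variable {c d m : ℝ} (h : Par c d m)

/-- The annulus in the punctured surface. -/
noncomputable def annX : C(ℝ × ℝ, X) :=
  ⟨fun a => ⟨ann c d a, ann_ne a⟩, (continuous_ann h).subtype_mk _⟩

/-- The twist as an element of the group of homeomorphisms. -/
noncomputable def twP : HomeoPos 3 := ⟨twH h, twH_mem h⟩

/-- The image of the boundary line under the twist. -/
noncomputable def fR : C(ℝ, X) := (res (twP h)).comp (pX.comp ⟨ofReal, continuous_ofReal⟩)

theorem fR_val (x : ℝ) : (fR h x).1 = tw (ann c d) m (pS x) := rfl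

theorem edge_ln (l : Fin 6) : Phi.H ((edge l).map (res (twP h)).continuous) =
    Phi.ln (fR h) (arc l) (arc l + 1) := by
  simpa using Phi.ln_path (fR h) ((edge l).map (res (twP h)).continuous) (fun s => arc l + s)
    (by fun_prop) fun s => rfl

theorem fR_out {a b : ℝ} (ha : 0 ≤ a) (hab : a ≤ b) (hb : b ≤ 12)
    (H : ∀ x ρ, a ≤ x → x ≤ b → 5 / 8 < ρ → ρ < 7 / 8 → |x - c| ≠ ρ ∧ |x - c| ≠ d - ρ) :
    Phi.ln (fR h) a b = (wd (cell a))⁻¹ * wd (cell b) := by
  rw [Phi.ln_congr' (fR h) pX a b a b fun s hs => ?_, Phi_ln, ofReal_re, ofReal_re]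
  have h1 : a ≤ a + s • (b - a) := le_add_of_nonneg_right (mul_nonneg hs.1 (by linarith))
  have h2 : a + s • (b - a) ≤ b := by
    have := mul_le_of_le_one_left (sub_nonneg.2 hab) hs.2
    rw [smul_eq_mul]; linarith
  have h3 : (a : ℂ) + s • ((b : ℂ) - a) = ((a + s • (b - a) : ℝ) : ℂ) := by simp
  rw [h3]
  generalize a + s • (b - a) = x at h1 h2
  refine Subtype.ext ((fR_val h x).trans (h.annu.tw_out (Or.inl rfl) fun φ σ h0 h0' e => ?_))
  have h4 := ann_out h (w := x) (by simpa using ha.trans h1) (by simpa using h2.trans hb) φ σ e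
  rw [← ofReal_sub, norm_real, Real.norm_eq_abs, rho_eq ⟨h0.le, h0'.le⟩] at h4
  have h5 := H x (5 / 8 + σ / 4) h1 h2 (by linarith only [h0]) (by linarith only [h0'])
  exact h4.elim h5.1 h5.2

theorem fR_in {a b φ σ σ' : ℝ} (hσ : σ ∈ Icc (0 : ℝ) 1) (hσ' : σ' ∈ Icc (0 : ℝ) 1)
    (H : ∀ s ∈ Icc (0 : ℝ) 1, pS ((a + s * (b - a) : ℝ) : ℂ) = ann c d (φ, σ + s * (σ' - σ))) :
    Phi.ln (fR h) a b = Phi.ln (annX h) (φ + m * σ, σ) (φ + m * σ', σ') := by
  refine Phi.ln_congr' (fR h) (annX h) _ _ _ _ fun s hs => Subtype.ext ?_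
  have h1 : σ + s * (σ' - σ) ∈ Icc (0 : ℝ) 1 := by
    have := (convex_Icc (0 : ℝ) 1).add_smul_sub_mem hσ hσ' hs
    simpa using this
  rw [fR_val, smul_eq_mul, H s hs, h.annu.tw_apply _ _ h1]
  show ann c d _ = ann c d _
  congr 1
  ext <;> simp
  ring

theorem ann_zero (σ : ℝ) : ann c d (0, σ) = pS ((c + rho σ : ℝ) : ℂ) := by
  rw [ann_pos σ (by simp)]
  simp

theorem ann_one (σ : ℝ) : ann c d (1, σ) = pS ((c - rho σ : ℝ) : ℂ) := by
  rw [ann_pos σ (by simp)]
  simp [sub_eq_add_neg]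

theorem rad_zero : Phi.ln (annX h) (0, 0) (0, 1) =
    (wd (cell (c + 5 / 8)))⁻¹ * wd (cell (c + 7 / 8)) := by
  rw [Phi.ln_congr (annX h) pX _ _ (fun s => ((c + rho s : ℝ) : ℂ))
    (continuous_ofReal.comp (continuous_const.add (continuous_rho.comp continuous_subtype_val)))
    fun s => Subtype.ext (show ann c d _ = pS _ by simpa using ann_zero s), Phi_ln]
  norm_num [rho]

theorem rad_one : Phi.ln (annX h) (1, 0) (1, 1) =
    (wd (cell (c - 5 / 8)))⁻¹ * wd (cell (c - 7 / 8)) := by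
  rw [Phi.ln_congr (annX h) pX _ _ (fun s => ((c - rho s : ℝ) : ℂ))
    (continuous_ofReal.comp (continuous_const.sub (continuous_rho.comp continuous_subtype_val)))
    fun s => Subtype.ext (show ann c d _ = pS _ by simpa using ann_one s), Phi_ln]
  norm_num [rho]

theorem arc_up : Phi.ln (annX h) (0, 1) (1, 1) =
    (wd (cell (c + 7 / 8)))⁻¹ * wd (cell (c - 7 / 8)) := by
  rw [Phi.ln_congr (annX h) pX _ _ (fun s => c + rho 1 * exp (Real.pi * (s : ℝ) * I)) (by fun_prop)
    fun s => Subtype.ext (show ann c d _ = pS _ by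
      simpa using ann_pos (c := c) (d := d) (φ := s) 1 (Real.sin_nonneg_of_nonneg_of_le_pi
        (mul_nonneg Real.pi_pos.le s.2.1) (mul_le_of_le_one_right Real.pi_pos.le s.2.2))), Phi_ln]
  norm_num [rho, sub_eq_add_neg]

theorem arc_dn : Phi.ln (annX h) (1, 1) (2, 1) =
    (wd (cell (c - (d - 7 / 8))))⁻¹ * wd (cell (c + (d - 7 / 8))) := by
  rw [Phi.ln_congr (annX h) pX _ _
    (fun s => c + (d - rho 1 : ℝ) * exp (Real.pi * (1 + s : ℝ) * I)) (by fun_prop)
    fun s => Subtype.ext (by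
      have := ann_neg h (φ := 1 + s) 1 (by
        rw [mul_add, mul_one, add_comm, Real.sin_add_pi, neg_nonpos]
        exact Real.sin_nonneg_of_nonneg_of_le_pi
          (mul_nonneg Real.pi_pos.le s.2.1) (mul_le_of_le_one_right Real.pi_pos.le s.2.2))
      norm_num at this ⊢
      exact this), Phi_ln]
  have e : exp (Real.pi * 2 * I) = 1 := by
    rw [mul_comm (Real.pi : ℂ), exp_two_pi_mul_I]
  norm_num [rho, sub_eq_add_neg, e]

end

theorem wd_vals : wd 1 = of 0 ∧ wd 2 = of 0 * of 1 ∧ wd 3 = of 0 * of 1 * (of 0)⁻¹ ∧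
    wd 4 = of 0 * of 1 * (of 0)⁻¹ * (of 1)⁻¹ ∧ wd 5 = of 0 * of 1 * (of 0)⁻¹ * (of 1)⁻¹ * of 2 ∧
    wd 7 = w7 := by
  have h1 : wd 1 = of 0 := (wd_succ 0).trans (by rw [wd_zero, one_mul]; rfl)
  have h2 : wd 2 = of 0 * of 1 := (wd_succ 1).trans (by rw [h1]; rfl)
  have h3 : wd 3 = of 0 * of 1 * (of 0)⁻¹ := (wd_succ 2).trans (by rw [h2]; rfl)
  have h4 : wd 4 = of 0 * of 1 * (of 0)⁻¹ * (of 1)⁻¹ := (wd_succ 3).trans (by rw [h3]; rfl)
  have h5 : wd 5 = of 0 * of 1 * (of 0)⁻¹ * (of 1)⁻¹ * of 2 := (wd_succ 4).trans (by rw [h4]; rfl)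
  have h6 : wd 6 = of 0 * of 1 * (of 0)⁻¹ * (of 1)⁻¹ * of 2 * of 3 :=
    (wd_succ 5).trans (by rw [h5]; rfl)
  exact ⟨h1, h2, h3, h4, h5, (wd_succ 6).trans (by rw [h6]; rfl)⟩

theorem cell_of {θ : ℝ} (j : ℤ) (h : |θ - j| < 1 / 2) : cell θ = j :=
  cell_eq (by linarith only [h, (abs_lt.1 h).1]) (by linarith only [h, (abs_lt.1 h).2])

theorem edge_out {c d m : ℝ} (h : Par c d m) (l : Fin 6)
    (H : ∀ x ρ, (arc l : ℝ) ≤ x → x ≤ arc l + 1 → 5 / 8 < ρ → ρ < 7 / 8 →
      |x - c| ≠ ρ ∧ |x - c| ≠ d - ρ) :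
    Phi.H ((edge l).map (res (twP h)).continuous) = of l := by
  have h1 : 0 ≤ arc l ∧ arc l + 1 ≤ 12 := by unfold arc; omega
  rw [edge_ln, fR_out h (by exact_mod_cast h1.1) (by linarith) (by exact_mod_cast h1.2) H, cell_int,
    show (arc l : ℝ) + 1 = ((arc l + 1 : ℤ) : ℝ) by push_cast; rfl, cell_int, wd_succ, lett_arc,
    inv_mul_cancel_left]

theorem abs_ne {x c d ρ : ℝ} (h : x - c ≠ ρ ∧ c - x ≠ ρ ∧ x - c ≠ d - ρ ∧ c - x ≠ d - ρ) :
    |x - c| ≠ ρ ∧ |x - c| ≠ d - ρ := by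
  rcases abs_cases (x - c) with e | e <;> rw [e.1]
  · exact ⟨h.1, h.2.2.1⟩
  · rw [neg_sub]; exact ⟨h.2.1, h.2.2.2⟩

theorem arc_vals : arc 0 = 0 ∧ arc 1 = 1 ∧ arc 2 = 4 ∧ arc 3 = 5 ∧ arc 4 = 8 ∧ arc 5 = 9 := by
  decide

theorem edge_simple {c : ℝ} (h : Par c 0 1) (l : Fin 6) (hc : c = arc l + 3 / 2) (hl : arc l ≤ 1) :
    Phi.H ((edge l).map (res (twP h)).continuous) = of l * lett (arc l + 1) := by
  have h1 : (0 : ℝ) ≤ arc l := by exact_mod_cast (show 0 ≤ arc l by unfold arc; omega)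
  have h2 : (arc l : ℝ) ≤ 1 := by exact_mod_cast hl
  rw [edge_ln, ← Phi.ln_trans (fR h) _ (arc l + 5 / 8),
    ← Phi.ln_trans (fR h) (arc l + 5 / 8) (arc l + 7 / 8),
    fR_out h h1 (by linarith only []) (by linarith only [h2]) fun x ρ _ _ _ _ =>
      abs_ne ⟨by linarith, by linarith, by linarith, by linarith⟩,
    fR_out h (a := arc l + 7 / 8) (by linarith only [h1]) (by linarith only []) (by linarith only [h2]) fun x ρ _ _ _ _ =>
      abs_ne ⟨by linarith, by linarith, by linarith, by linarith⟩,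
    fR_in h (φ := 1) (σ := 1) (σ' := 0) (by simp) (by simp) fun s hs => by
      rw [ann_one, rho_eq ⟨by linarith only [hs, hs.2], by linarith [hs.1]⟩, hc]; congr 2; ring,
    show (1 : ℝ) + 1 * 1 = 2 by norm_num, show (1 : ℝ) + 1 * 0 = 1 by norm_num,
    ← Phi.ln_trans _ _ (1, 1), Phi.ln_symm _ (1, 1), Phi.ln_symm _ (1, 0), rad_one, arc_dn, cell_int,
    cell_of (θ := arc l + 5 / 8) (arc l + 1) (by rw [abs_lt]; push_cast; constructor <;> linarith only []),
    cell_of (θ := arc l + 7 / 8) (arc l + 1) (by rw [abs_lt]; push_cast; constructor <;> linarith only []),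
    cell_of (θ := arc l + 1) (arc l + 1) (by simp),
    cell_of (θ := c - 5 / 8) (arc l + 1) (by rw [abs_lt]; push_cast; constructor <;> linarith only [hc]),
    cell_of (θ := c - 7 / 8) (arc l + 1) (by rw [abs_lt]; push_cast; constructor <;> linarith only [hc]),
    cell_of (θ := c - (0 - 7 / 8)) (arc l + 1 + 1)
      (by rw [abs_lt]; push_cast; constructor <;> linarith only [hc]),
    cell_of (θ := c + (0 - 7 / 8)) (arc l + 1) (by rw [abs_lt]; push_cast; constructor <;> linarith only [hc]),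
    wd_succ (arc l + 1), wd_succ (arc l), lett_arc]
  group

theorem ind_t1 : ∃ h : HomeoPos 3, Ind (res h) (FreeGroup.lift t1) := by
  have h : Par (3 / 2) 0 1 := Or.inl ⟨rfl, rfl, rfl⟩
  obtain ⟨a0, a1, a2, a3, a4, a5⟩ := arc_vals
  refine ⟨twP h, Ind.of_edges fun l => ?_⟩
  rw [lift_apply_of]
  by_cases hl : l = 0
  · subst hl
    exact edge_simple h 0 (by simp [a0]) (by decide)
  rw [show t1 l = of l by fin_cases l <;> first | rfl | exact (hl rfl).elim]
  refine edge_out h l fun x ρ h1 h2 h3 h4 => abs_ne ?_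
  fin_cases l <;> simp only [Fin.reduceFinMk, Fin.zero_eta, Fin.mk_one, a0, a1, a2, a3, a4, a5,
    Int.cast_ofNat, Int.cast_one, not_true_eq_false] at h1 h2 hl <;>
    exact ⟨by linarith only [h3, h2, h4, h1], by linarith only [h3, h1], by linarith only [h3, h1], by linarith only [h3, h2, h4, h1]⟩

theorem ind_t2 : ∃ h : HomeoPos 3, Ind (res h) (FreeGroup.lift t2) := by
  have h : Par (5 / 2) 0 1 := Or.inr (Or.inl ⟨rfl, rfl, rfl⟩)
  obtain ⟨a0, a1, a2, a3, a4, a5⟩ := arc_vals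
  refine ⟨twP h, Ind.of_edges fun l => ?_⟩
  rw [lift_apply_of]
  by_cases hl : l = 1
  · subst hl
    exact edge_simple h 1 (by norm_num [a1]) (by decide)
  rw [show t2 l = of l by fin_cases l <;> first | rfl | exact (hl rfl).elim]
  refine edge_out h l fun x ρ h1 h2 h3 h4 => abs_ne ?_
  fin_cases l <;> simp only [Fin.reduceFinMk, Fin.zero_eta, Fin.mk_one, a0, a1, a2, a3, a4, a5,
    Int.cast_ofNat, Int.cast_zero, not_true_eq_false] at h1 h2 hl <;>
    exact ⟨by linarith only [h3, h2, h4, h1], by linarith only [h4, h2, h3, h1], by linarith only [h4, h2, h3, h1], by linarith only [h3, h2, h4, h1]⟩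

theorem ind_t3 : ∃ h : HomeoPos 3, Ind (res h) (FreeGroup.lift t3) := by
  have h : Par (7 / 2) 4 2 := Or.inr (Or.inr ⟨rfl, rfl, rfl⟩)
  obtain ⟨a0, a1, a2, a3, a4, a5⟩ := arc_vals
  obtain ⟨w1, w2, w3, w4, w5, w6⟩ := wd_vals
  have up : Phi.ln (annX h) (0, 1) (1, 1) = of 1 := by
    rw [arc_up, cell_of 4 (by norm_num [abs_lt]), cell_of 3 (by norm_num [abs_lt]), w3, w4]
    group
  have dn : Phi.ln (annX h) (1, 1) (2, 1) = w7 := by
    rw [arc_dn, cell_of 0 (by norm_num [abs_lt]), cell_of 7 (by norm_num [abs_lt]), wd_zero, w6]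
    group
  have up' : Phi.ln (annX h) (2, 1) (3, 1) = of 1 := by
    rw [← up]
    refine Phi.ln_congr' _ _ _ _ _ _ fun s _ => Subtype.ext ?_
    have := ann_per h s 1
    norm_num [add_comm] at this ⊢
    exact this
  refine ⟨twP h, Ind.of_edges fun l => ?_⟩
  rw [lift_apply_of]
  by_cases hl : l = 0
  · subst hl
    rw [edge_ln, a0, Int.cast_zero, ← Phi.ln_trans _ _ (1 / 8), ← Phi.ln_trans _ (1 / 8) (3 / 8),
      fR_out h le_rfl (by norm_num) (by norm_num) fun x ρ _ _ _ _ =>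
        abs_ne ⟨by linarith, by linarith, by linarith, by linarith⟩,
      fR_out h (a := 3 / 8) (by norm_num) (by norm_num) (by norm_num) fun x ρ _ _ _ _ =>
        abs_ne ⟨by linarith, by linarith, by linarith, by linarith⟩,
      fR_in h (φ := 1) (σ := 0) (σ' := 1) (by simp) (by simp) fun s hs => by
        have e := h.glue (rho_mem (0 + s * (1 - 0))) (Or.inr rfl)
        rw [ann_one, sub_eq_add_neg (7 / 2 : ℝ), ← neg_one_mul (rho _), e,
          rho_eq ⟨by linarith [hs.1], by linarith [hs.2]⟩]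
        congr 2; ring,
      show (1 : ℝ) + 2 * 0 = 1 by norm_num, show (1 : ℝ) + 2 * 1 = 3 by norm_num,
      ← Phi.ln_trans _ _ (1, 1), ← Phi.ln_trans _ (1, 1) (2, 1), rad_one, dn, up',
      cell_of (θ := 0) 0 (by norm_num), cell_of (θ := 1 / 8) 0 (by norm_num [abs_lt]),
      cell_of (θ := 3 / 8) 0 (by norm_num [abs_lt]), cell_of (θ := 0 + 1) 1 (by norm_num),
      cell_of (θ := 7 / 2 - 5 / 8) 3 (by norm_num [abs_lt]),
      cell_of (θ := 7 / 2 - 7 / 8) 3 (by norm_num [abs_lt]), wd_zero, w1]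
    show _ = w7 * of 1 * of 0
    group
  by_cases hl' : l = 2
  · subst hl'
    rw [edge_ln, a2, Int.cast_ofNat, ← Phi.ln_trans _ _ (33 / 8),
      ← Phi.ln_trans _ (33 / 8) (35 / 8),
      fR_out h (by norm_num) (by norm_num) (by norm_num) fun x ρ _ _ _ _ =>
        abs_ne ⟨by linarith, by linarith, by linarith, by linarith⟩,
      fR_out h (a := 35 / 8) (by norm_num) (by norm_num) (by norm_num) fun x ρ _ _ _ _ =>
        abs_ne ⟨by linarith, by linarith, by linarith, by linarith⟩,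
      fR_in h (φ := 0) (σ := 0) (σ' := 1) (by simp) (by simp) fun s hs => by
        rw [ann_zero, rho_eq ⟨by linarith [hs.1], by linarith [hs.2]⟩]
        congr 2; ring,
      show (0 : ℝ) + 2 * 0 = 0 by norm_num, show (0 : ℝ) + 2 * 1 = 2 by norm_num,
      ← Phi.ln_trans _ _ (0, 1), ← Phi.ln_trans _ (0, 1) (1, 1), rad_zero, dn, up,
      cell_of (θ := 4) 4 (by norm_num), cell_of (θ := 33 / 8) 4 (by norm_num [abs_lt]),
      cell_of (θ := 35 / 8) 4 (by norm_num [abs_lt]), cell_of (θ := 4 + 1) 5 (by norm_num),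
      cell_of (θ := 7 / 2 + 5 / 8) 4 (by norm_num [abs_lt]),
      cell_of (θ := 7 / 2 + 7 / 8) 4 (by norm_num [abs_lt]), w4, w5]
    show _ = of 1 * w7 * of 2
    group
  rw [show t3 l = of l by fin_cases l <;> first | rfl | exact (hl rfl).elim | exact (hl' rfl).elim]
  refine edge_out h l fun x ρ h1 h2 h3 h4 => abs_ne ?_
  fin_cases l <;> simp only [Fin.reduceFinMk, Fin.zero_eta, Fin.mk_one, a0, a1, a2, a3, a4, a5,
    Int.cast_ofNat, Int.cast_one, not_true_eq_false] at h1 h2 hl hl' <;>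
    exact ⟨by linarith only [h3, h2, h4, h1], by linarith only [h4, h2, h3, h1], by linarith only [h4, h2, h3, h1], by linarith only [h4, h1]⟩

/-- The bridge from the algebraic model to the mapping class group. -/
theorem bridge {G : Type*} [Group G] (Ψ : Stab →* G)
    (hinn : ∀ (φ : Stab) (c : F6), φ.1 = MulAut.conj c → Ψ φ = 1) :
    ∃ Θ : Mod 3 →* G, ∀ φ : Stab, ((∀ l, φ.1 (of l) = t1 l) ∨ (∀ l, φ.1 (of l) = t2 l) ∨
      ∀ l, φ.1 (of l) = t3 l) → Ψ φ ∈ Θ.range := by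
  obtain ⟨Θ, hΘ⟩ := exists_hom Ψ hinn
  have key : ∀ (t : Fin 6 → F6) (φ : Stab), (∃ h : HomeoPos 3, Ind (res h) (FreeGroup.lift t)) →
      (∀ l, φ.1 (of l) = t l) → Ψ φ ∈ Θ.range := by
    rintro t φ ⟨h, hh⟩ e
    refine ⟨_, hΘ h φ ?_⟩
    rwa [show φ.1.toMonoidHom = FreeGroup.lift t from FreeGroup.ext_hom _ _ fun l => by
      simpa using e l]
  exact ⟨Θ, fun φ hφ => hφ.elim (key _ φ ind_t1) fun hφ =>
    hφ.elim (key _ φ ind_t2) (key _ φ ind_t3)⟩

end SurfMod
end
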