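import Mathlib

/-!
The closed orientable surface of genus `g` with one marked point and its mapping class group.
-/

set_option autoImplicit false

open Complex Set Metric ContinuousMap

namespace SurfMod

/-- The point with parameter `t` on the unit circle, a full turn being `4 g`. -/
noncomputable def bd (g : ℕ) (t : ℝ) : ℂ := exp (2 * Real.pi * t / (4 * g) * I)

theorem norm_bd (g : ℕ) (t : ℝ) : ‖bd g t‖ = 1 := by
  rw [bd, ← norm_exp_ofReal_mul_I (2 * Real.pi * t / (4 * g))]
  push_cast
  rfl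

/-- The side pairing `a₁ b₁ a₁⁻¹ b₁⁻¹ ⋯ a_g b_g a_g⁻¹ b_g⁻¹` of the closed disc, whose boundary is
cut into the `4 g` arcs `bd g '' [j, j + 1]`: arc `4 i + k` is glued to arc `4 i + k + 2`
(`k = 0, 1`), reversing the direction. -/
def Glue (g : ℕ) (z z' : closedBall (0 : ℂ) 1) : Prop :=
  ∃ i < g, ∃ k < 2, ∃ s ∈ Icc (0 : ℝ) 1,
    z = bd g (4 * (i : ℕ) + (k : ℕ) + s) ∧ z' = bd g (4 * (i : ℕ) + (k : ℕ) + 3 - s)

/-- The closed orientable surface of genus `g`, with the quotient topology. -/
abbrev Surf (g : ℕ) : Type := Quot (Glue g)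

/-- The marked point: the centre of the disc. -/
def ctr (g : ℕ) : Surf g := Quot.mk _ ⟨0, mem_closedBall_self zero_le_one⟩

/-- The circle of radius `1 / 2` round the marked point. -/
noncomputable def loop (g : ℕ) : C(Circle, Surf g) :=
  ⟨fun u => Quot.mk _ ⟨u / 2, by simp; norm_num⟩,
    continuous_quot_mk.comp (by fun_prop)⟩

/-- Homeomorphisms that fix the marked point and preserve the orientation: the image of `loop g`
is homotopic to `loop g` through loops that avoid the marked point. -/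
def HomeoPos (g : ℕ) : Subgroup (Surf g ≃ₜ Surf g) where
  carrier := {h | h (ctr g) = ctr g ∧
    HomotopicWith (loop g) ((h : C(Surf g, Surf g)).comp (loop g)) fun f => ∀ u, f u ≠ ctr g}
  one_mem' := ⟨rfl, HomotopicWith.refl _ fun u e => by
    have := congrArg (Quot.lift (fun z : closedBall (0 : ℂ) 1 => ‖z.1‖) (by
      rintro _ _ ⟨i, _, k, _, s, _, h1, h2⟩
      simp only [h1, h2, norm_bd])) e
    simp [loop, ctr] at this⟩
  mul_mem' := by
    rintro a b ⟨a1, a2⟩ ⟨b1, ⟨H⟩⟩
    exact ⟨by simp [a1, b1], a2.trans ⟨⟨(ContinuousMap.Homotopy.refl (a : C(Surf g, Surf g))).comp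
      H.toHomotopy, fun t u e => H.prop t u (a.injective (e.trans a1.symm))⟩⟩⟩
  inv_mem' := by
    rintro a ⟨a1, ⟨H⟩⟩
    have a2 : a.symm (ctr g) = ctr g := a.symm_apply_eq.2 a1.symm
    exact ⟨a2, HomotopicWith.symm ⟨⟨((ContinuousMap.Homotopy.refl
      (a.symm : C(Surf g, Surf g))).comp H.toHomotopy).cast rfl (by ext; simp), fun t u e =>
        H.prop t u (a.symm.injective (e.trans a2.symm))⟩⟩⟩

/-- Isotopy: homotopy through homeomorphisms that fix the marked point. -/
def isotopy (g : ℕ) : Con (HomeoPos g) where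
  r f h := HomotopicWith (f.1 : C(Surf g, Surf g)) (h.1 : C(Surf g, Surf g))
    fun k => IsHomeomorph k ∧ k (ctr g) = ctr g
  iseqv := ⟨fun f => HomotopicWith.refl _ ⟨f.1.isHomeomorph, f.2.1⟩, fun h => h.symm,
    fun h h' => h.trans h'⟩
  mul' := by
    rintro a b c d ⟨H⟩ ⟨K⟩
    exact ⟨⟨H.toHomotopy.comp K.toHomotopy, fun t => ⟨(H.prop t).1.comp (K.prop t).1,
      (congrArg _ (K.prop t).2).trans (H.prop t).2⟩⟩⟩

/-- The mapping class group of the surface of genus `g` with one marked point. -/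
abbrev Mod (g : ℕ) : Type := (isotopy g).Quotient

end SurfMod
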