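import Pool.Agent.Work.MP_497bf6_gt.Top.Comp
import Pool.Agent.Work.MP_497bf6_gt.Nu

/-!
From a homomorphism on the stabiliser of the relator to a homomorphism on the mapping class group;
the three twists as lists of slides.
-/

set_option autoImplicit false

open FreeGroup Pool.Agent

namespace SurfMod

theorem bdry_eq : bdry = IvT.r := by decide

theorem bridge_stab {G : Type} [Group G] (Φ : IvT.Stab →* G)
    (h : ∀ γ : IvT.Stab, (γ : MulAut F6) = MulAut.conj IvT.r → Φ γ = 1) :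
    ∃ Θ : Mod 3 →* G, ∀ γ : IvT.Stab, ((∀ l, γ.1 (of l) = t1 l) ∨ (∀ l, γ.1 (of l) = t2 l) ∨
      ∀ l, γ.1 (of l) = t3 l) → Φ γ ∈ Θ.range := by
  have ex : ∀ φ : Stab, ∃ g, IvT.Wrap_R Φ φ.1 g := fun φ => by
    obtain ⟨x, hx⟩ := isConj_iff.1 (IsConj.symm φ.2)
    rw [bdry_eq] at hx
    have h5 : (MulAut.conj x)⁻¹ * φ.1 ∈ IvT.Stab := by
      show ((MulAut.conj x)⁻¹ * φ.1 : MulAut F6) IvT.r = IvT.r
      rw [MulAut.mul_apply, ← hx, MulAut.conj_inv_apply]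
      group
    exact ⟨_, x, ⟨_, h5⟩, (mul_inv_cancel_left _ _).symm, rfl⟩
  choose ψ hψ using ex
  obtain ⟨Θ, hΘ⟩ := bridge (MonoidHom.mk' ψ fun a b =>
    IvT.Wrap_R_unique Φ h (hψ (a * b)) (IvT.Wrap_R_mul Φ (hψ a) (hψ b))) fun φ c e =>
      IvT.Wrap_R_unique Φ h (hψ φ) ⟨c, 1, by rw [e]; exact (mul_one _).symm, (_root_.map_one Φ).symm⟩
  refine ⟨Θ, fun γ hγ => ?_⟩
  have hm : γ.1 ∈ Stab := by
    show IsConj (γ.1 bdry) bdry
    rw [bdry_eq, IvT.Wrap_fix γ]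
  have e : ψ ⟨γ.1, hm⟩ = Φ γ :=
    IvT.Wrap_R_unique Φ h (hψ _) ⟨1, γ, by rw [_root_.map_one, one_mul], rfl⟩
  exact e ▸ hΘ ⟨γ.1, hm⟩ hγ

theorem exists_aut (t s : Fin 6 → F6) (h1 : ∀ l, lift s (t l) = of l)
    (h2 : ∀ l, lift t (s l) = of l) (h3 : lift t IvT.r = IvT.r) :
    ∃ γ : IvT.Stab, ∀ a, γ.1 a = lift t a :=
  ⟨⟨MonoidHom.toMulEquiv (lift t) (lift s) (ext_hom _ _ fun l => by simpa using h1 l)
    (ext_hom _ _ fun l => by simpa using h2 l), h3⟩, fun _ => rfl⟩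

/-- The slides of the first twist. -/
def ms1 : List (ℕ × ℕ) := [(2, 1)]

/-- The slides of the second twist. -/
def ms2 : List (ℕ × ℕ) := [(3, 2)]

/-- The slides of the third twist. -/
def ms3 : List (ℕ × ℕ) := [(4, 1), (4, 0), (2, 1), (2, 4), (2, 5), (6, 2), (0, 3)]

theorem ok_ms : IvT.okrun IvT.D0 id ms1 ∧ IvT.okrun IvT.D0 id ms2 ∧ IvT.okrun IvT.D0 id ms3 := by
  simp only [ms1, ms2, ms3, IvT.okrun, IvT.Adj]
  decide +kernel

/-- The values of the three lists of slides lie in the image of the mapping class group. -/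
theorem bridge_run {G : Type} [Group G] (g : (ℕ → ℕ) → ℕ → ℕ → G) (Φ : IvT.Stab →* G)
    (hΦ : ∀ (γ : IvT.Stab) (ms : List (ℕ × ℕ)), IvT.okrun IvT.D0 id ms →
      (∀ k, k < 12 → ∃ j, j < 12 ∧ (γ : MulAut F6) (IvT.y0 k) = IvT.ups IvT.D0 IvT.y0 ms j) →
      Φ γ = IvT.run g IvT.D0 id ms)
    (h : ∀ γ : IvT.Stab, (γ : MulAut F6) = MulAut.conj IvT.r → Φ γ = 1) :
    ∃ Θ : Mod 3 →* G, IvT.run g IvT.D0 id ms1 ∈ Θ.range ∧ IvT.run g IvT.D0 id ms2 ∈ Θ.range ∧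
      IvT.run g IvT.D0 id ms3 ∈ Θ.range := by
  obtain ⟨Θ, hΘ⟩ := bridge_stab Φ h
  obtain ⟨γ1, e1⟩ := exists_aut t1 ![of 0 * (of 1)⁻¹, of 1, of 2, of 3, of 4, of 5]
    (by decide +kernel) (by decide +kernel) (by decide +kernel)
  obtain ⟨γ2, e2⟩ := exists_aut t2 ![of 0, of 1 * of 0, of 2, of 3, of 4, of 5]
    (by decide +kernel) (by decide +kernel) (by decide +kernel)
  obtain ⟨γ3, e3⟩ := exists_aut t3
    ![(w7 * of 1)⁻¹ * of 0, of 1, (of 1 * w7)⁻¹ * of 2, of 3, of 4, of 5]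
    (by decide +kernel) (by decide +kernel) (by decide +kernel)
  refine ⟨Θ, ?_, ?_, ?_⟩
  · rw [← hΦ γ1 ms1 ok_ms.1 (by simp only [e1]; decide +kernel)]
    exact hΘ γ1 (Or.inl fun l => by rw [e1, lift_apply_of])
  · rw [← hΦ γ2 ms2 ok_ms.2.1 (by simp only [e2]; decide +kernel)]
    exact hΘ γ2 (Or.inr (Or.inl fun l => by rw [e2, lift_apply_of]))
  · rw [← hΦ γ3 ms3 ok_ms.2.2 (by simp only [e3]; decide +kernel)]
    exact hΘ γ3 (Or.inr (Or.inr fun l => by rw [e3, lift_apply_of]))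

end SurfMod
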